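import Pool.Agent.TH573.HY.Par
import Pool.Agent.TH573.SM.Tower
import Pool.Agent.H220M.M6

/-!
The sifted set in residue classes modulo `∏ q ^ 2`.
-/

set_option autoImplicit false

namespace Pool.Agent.TH573.HY

open Finset Polynomial Filter
open Pool.Agent.H410R2.ED Pool.Agent.H474R2.PG Pool.Agent.H220M

/-- the conclusion of the sieve for `P`, with the constants `c`, `κ` -/
def SieveFor (P : ℤ[X]) (c κ : ℕ) : Prop :=
  1 ≤ c ∧ 1 ≤ κ ∧ (∀ l : ℕ, l.Prime → 2 * κ < l → rho P l ≤ κ) ∧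
    ∀ (J M r N1 N : ℕ), (∀ l : ℕ, l.Prime → l ∣ M → ¬ (l : ℤ) ∣ P.eval ((r : ℤ) + 1)) →
      (((Ico N1 (N1 + N)).filter (fun t : ℕ => ∀ l ∈ Pr κ J,
        ¬ (l : ℤ) ∣ P.eval (((r + M * t : ℕ) : ℤ) + 1))).card : ℝ) ≤
      2 * N * ∏ l ∈ (Pr κ J).filter (fun l => ¬ l ∣ M), (1 - (rho P l : ℝ) / l) +
        ((2 : ℝ) ^ 2 ^ J) ^ (c * κ)

theorem sieveFor (P : ℤ[X]) (hP : P ≠ 0) : ∃ c κ : ℕ, SieveFor P c κ := by
  obtain ⟨c, hc, h⟩ := sieve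
  obtain ⟨κ, h1, h2, h3⟩ := h P hP
  exact ⟨c, κ, hc, h1, h2, h3⟩

theorem ev_small_prime (c κ : ℕ) (hcκ : 1 ≤ c * κ) :
    ∀ᶠ j : ℕ in atTop, j / 16 < 2 ^ 2 ^ JJ c κ j := by
  obtain ⟨A, hA⟩ : ∃ A, A = 16 * (c * κ) := ⟨_, rfl⟩
  filter_upwards [eventually_ge_atTop (A * (A + 4))] with j hj
  have h1 : (j : ℝ) ≤ 16 * (c * κ) * 2 ^ JJ c κ j := le_pow_JJ hcκ
  have h2 : j ≤ A * 2 ^ JJ c κ j := by
    rw [hA]
    exact_mod_cast h1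
  obtain ⟨u, hu⟩ : ∃ u, u = 2 ^ JJ c κ j := ⟨_, rfl⟩
  rw [← hu] at h2 ⊢
  have hA0 : 0 < A := by omega
  have h3 : A + 4 ≤ u := Nat.le_of_mul_le_mul_left (hj.trans h2) hA0
  have h4 : u * u ≤ 2 ^ u := Pool.Agent.TH573.SM.sq_le_two_pow (by omega)
  have h5 : A * u ≤ u * u := Nat.mul_le_mul_right _ (by omega)
  have h6 : 0 < u * u := Nat.mul_pos (by omega) (by omega)
  omega

theorem rho_frac {P : ℤ[X]} {c κ : ℕ} (h : SieveFor P c κ) {q : ℕ} (hq : q.Prime)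
    (hκ : 2 * κ < q) : 0 ≤ 1 - (rho P q : ℝ) / q ∧ 1 - (rho P q : ℝ) / q ≤ 1 := by
  have h1 := h.2.2.1 q hq hκ
  have h2 : (rho P q : ℝ) ≤ q := by exact_mod_cast (by omega : rho P q ≤ q)
  have h3 : (0 : ℝ) < q := by exact_mod_cast hq.pos
  have h4 : (rho P q : ℝ) / q ≤ 1 := by rw [div_le_one h3]; exact h2
  have h5 : (0 : ℝ) ≤ (rho P q : ℝ) / q := by positivity
  constructor <;> linarith

theorem class_count (Ps : Finset ℤ[X]) (hPs : Fam Ps) (P : ℤ[X]) (hP : P = ∏ p ∈ Ps, p)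
    (c κ : ℕ) (h : SieveFor P c κ) :
    ∃ C : ℝ, 0 < C ∧ ∀ᶠ j : ℕ in atTop, ∀ r : ℕ, 1 ≤ r → ∀ Q₀ : Finset ℕ,
      (∀ q ∈ Q₀, q.Prime ∧ 2 * κ < q ∧ q ≤ j / 16) → ∃ L : ℕ,
        (∀ ρ < ∏ q ∈ Q₀, q ^ 2, (∀ q ∈ Q₀, ¬ (q : ℤ) ∣ P.eval ((ρ : ℤ) + 1)) →
          (((range (2 ^ j * r)).filter (Wp P c κ j)).filter
            (fun m => m % (∏ q ∈ Q₀, q ^ 2) = ρ)).card ≤ L) ∧
        (L : ℝ) * ∏ q ∈ Q₀, (bet P q : ℝ) ≤ C * (((2 ^ j * r : ℕ) : ℝ) / (j : ℝ) ^ Ps.card) := by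
  obtain ⟨hc1, hκ1, hρ, hsv⟩ := id h
  have hcκ : 1 ≤ c * κ := Nat.mul_pos hc1 hκ1
  obtain ⟨C, hC, hV⟩ := V_scale Ps hPs c κ hcκ (by rw [← hP]; exact hρ)
  rw [← hP] at hV
  refine ⟨4 * C + 1, by positivity, ?_⟩
  filter_upwards [ev_small_prime c κ hcκ, ev_pow Ps.card 1 one_pos,
    eventually_ge_atTop (8 * (c * κ))] with j hj1 hj2 hj3 r hr Q₀ hQ₀
  obtain ⟨X, hX⟩ : ∃ X, X = 2 ^ j * r := ⟨_, rfl⟩
  obtain ⟨M, hM⟩ : ∃ M, M = ∏ q ∈ Q₀, q ^ 2 := ⟨_, rfl⟩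
  obtain ⟨J, hJ⟩ : ∃ J, J = JJ c κ j := ⟨_, rfl⟩
  obtain ⟨k, hk⟩ : ∃ k, k = Ps.card := ⟨_, rfl⟩
  rw [← hk] at hj2 hV ⊢
  rw [← hJ] at hj1
  have hj0 : 1 ≤ j := by omega
  have hM0 : 0 < M := by
    rw [hM]
    exact Finset.prod_pos fun q hq => pow_pos (hQ₀ q hq).1.pos 2
  have hMle : M ≤ 2 ^ (j / 4) := by
    rw [hM]
    refine (M6.prod_le (j / 16) Q₀ (fun q hq => ⟨(hQ₀ q hq).1, (hQ₀ q hq).2.2⟩)).trans ?_
    exact Nat.pow_le_pow_right (by norm_num) (by omega)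
  have hXj : 2 ^ j ≤ X := by
    rw [hX]
    exact Nat.le_mul_of_pos_right _ hr
  have hMX : M ≤ X := by
    refine (hMle.trans ?_).trans hXj
    exact Nat.pow_le_pow_right (by norm_num) (by omega)
  have hlM : ∀ l : ℕ, l.Prime → l ∣ M → l ∈ Q₀ := by
    intro l hl hd
    rw [hM, Prime.dvd_finsetProd_iff hl.prime] at hd
    obtain ⟨q, hq, hd⟩ := hd
    have := (Nat.prime_dvd_prime_iff_eq hl (hQ₀ q hq).1).1 (hl.dvd_of_dvd_pow hd)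
    rwa [this]
  have hqM : ∀ q ∈ Q₀, q ∣ M := fun q hq => by
    rw [hM]
    exact (dvd_pow_self q two_ne_zero).trans (Finset.dvd_prod_of_mem (fun q => q ^ 2) hq)
  obtain ⟨VM, hVM⟩ : ∃ VM : ℝ, VM = ∏ l ∈ (Pr κ J).filter (fun l => ¬ l ∣ M),
    (1 - (rho P l : ℝ) / l) := ⟨_, rfl⟩
  obtain ⟨Wq, hWq⟩ : ∃ Wq : ℝ, Wq = ∏ q ∈ Q₀, (1 - (rho P q : ℝ) / q) := ⟨_, rfl⟩
  have hVW : VM * Wq = ∏ l ∈ Pr κ J, (1 - (rho P l : ℝ) / l) := by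
    rw [← Finset.prod_filter_not_mul_prod_filter (Pr κ J) (fun l => l ∣ M), hVM, hWq]
    congr 1
    apply Finset.prod_congr _ (fun _ _ => rfl)
    ext l
    rw [mem_filter]
    constructor
    · intro hl
      refine ⟨?_, hqM l hl⟩
      unfold Pr
      rw [mem_filter, mem_range]
      exact ⟨by have := (hQ₀ l hl).2.2; omega, (hQ₀ l hl).1, (hQ₀ l hl).2.1⟩
    · rintro ⟨hl, hd⟩
      unfold Pr at hl
      rw [mem_filter] at hl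
      exact hlM l hl.2.1 hd
  have hVM0 : 0 ≤ VM := by
    rw [hVM]
    apply Finset.prod_nonneg
    intro l hl
    rw [mem_filter] at hl
    unfold Pr at hl
    rw [mem_filter] at hl
    exact (rho_frac h hl.1.2.1 hl.1.2.2).1
  have hWq0 : 0 ≤ Wq := by
    rw [hWq]
    exact Finset.prod_nonneg fun q hq => (rho_frac h (hQ₀ q hq).1 (hQ₀ q hq).2.1).1
  have hWq1 : Wq ≤ 1 := by
    rw [hWq]
    exact Finset.prod_le_one (fun q hq => (rho_frac h (hQ₀ q hq).1 (hQ₀ q hq).2.1).1)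
      (fun q hq => (rho_frac h (hQ₀ q hq).1 (hQ₀ q hq).2.1).2)
  obtain ⟨b, hb⟩ : ∃ b : ℝ, b = 2 * ((X / M + 1 : ℕ) : ℝ) * VM + ((2 : ℝ) ^ 2 ^ J) ^ (c * κ) :=
    ⟨_, rfl⟩
  have hb0 : 0 ≤ b := by rw [hb]; positivity
  refine ⟨⌊b⌋₊, ?_, ?_⟩
  · intro ρ hρM hρc
    rw [← hM] at hρM ⊢
    rw [← hX]
    apply Nat.le_floor
    have h1 := hsv J M ρ 0 (X / M + 1) (by
      intro l hl hd
      exact hρc l (hlM l hl hd))
    rw [← hVM, ← hb] at h1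
    refine le_trans ?_ h1
    rw [Nat.cast_le]
    refine Finset.card_le_card_of_injOn (fun m => m / M) ?_ ?_
    · intro m hm
      rw [mem_coe, mem_filter, mem_filter, mem_range] at hm
      rw [mem_coe, mem_filter, mem_Ico]
      refine ⟨⟨Nat.zero_le _, ?_⟩, ?_⟩
      · rw [zero_add]
        exact Nat.lt_succ_of_le (Nat.div_le_div_right hm.1.1.le)
      · have e : ρ + M * (m / M) = m := by
          rw [← hm.2, Nat.mod_add_div]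
        show ∀ l ∈ Pr κ J, ¬ (l : ℤ) ∣ P.eval (((ρ + M * (m / M) : ℕ) : ℤ) + 1)
        rw [e]
        have h2 := hm.1.2
        unfold Wp at h2
        rw [← hJ] at h2
        exact h2
    · intro m hm m' hm' he
      rw [mem_coe, mem_filter] at hm hm'
      simp only at he
      rw [← Nat.mod_add_div m M, ← Nat.mod_add_div m' M, hm.2, hm'.2, he]
  · have h1 : ∏ q ∈ Q₀, (bet P q : ℝ) = M * Wq := by
      rw [hM, hWq]
      push_cast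
      rw [← Finset.prod_mul_distrib]
      exact Finset.prod_congr rfl fun q hq => bet_eq P q (hQ₀ q hq).1
    rw [h1, ← hX]
    have hfl : (⌊b⌋₊ : ℝ) ≤ b := Nat.floor_le hb0
    have hMW : 0 ≤ (M : ℝ) * Wq := by positivity
    have h2 : (⌊b⌋₊ : ℝ) * (M * Wq) ≤ 2 * (((X / M + 1 : ℕ) : ℝ) * M) * (VM * Wq) +
        ((2 : ℝ) ^ 2 ^ J) ^ (c * κ) * M * Wq := by
      refine (mul_le_mul_of_nonneg_right hfl hMW).trans (le_of_eq ?_)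
      rw [hb]
      ring
    have h3 : ((X / M + 1 : ℕ) : ℝ) * M ≤ 2 * X := by
      have : (X / M + 1) * M ≤ 2 * X := by
        have := Nat.div_mul_le_self X M
        rw [add_mul, one_mul]
        omega
      exact_mod_cast this
    have h4 : VM * Wq ≤ C / (j : ℝ) ^ k := by
      rw [hVW, hJ]
      exact hV j hj0
    have h5 : ((2 : ℝ) ^ 2 ^ J) ^ (c * κ) * M * Wq ≤ X / (j : ℝ) ^ k := by
      have h6 : ((2 : ℝ) ^ 2 ^ J) ^ (c * κ) ≤ 2 ^ (j / 8) := by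
        rw [hJ]
        exact sifting_le hcκ hj3
      have h7 : (M : ℝ) ≤ 2 ^ (j / 4) := by exact_mod_cast hMle
      have hjk : (0 : ℝ) < (j : ℝ) ^ k := by positivity
      rw [le_div_iff₀ hjk]
      calc ((2 : ℝ) ^ 2 ^ J) ^ (c * κ) * M * Wq * (j : ℝ) ^ k
          ≤ 2 ^ (j / 8) * 2 ^ (j / 4) * 1 * (1 * 2 ^ (j / 2)) := by gcongr
        _ = (2 : ℝ) ^ (j / 8 + j / 4 + j / 2) := by
            rw [pow_add, pow_add]; ring
        _ ≤ 2 ^ j := pow_le_pow_right₀ (by norm_num) (by omega)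
        _ ≤ X := by exact_mod_cast hXj
    have h8 : 2 * (((X / M + 1 : ℕ) : ℝ) * M) * (VM * Wq) ≤ 2 * (2 * X) * (C / (j : ℝ) ^ k) := by
      have : 0 ≤ VM * Wq := mul_nonneg hVM0 hWq0
      gcongr
    calc (⌊b⌋₊ : ℝ) * (M * Wq) ≤ _ := h2
      _ ≤ 2 * (2 * X) * (C / (j : ℝ) ^ k) + X / (j : ℝ) ^ k := add_le_add h8 h5
      _ = (4 * C + 1) * (X / (j : ℝ) ^ k) := by ring

end Pool.Agent.TH573.HY
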