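import Pool.Agent.TH573.HY.VP

/-!
Integer polynomials which are not a constant times a product of distinct members of a family `Ps`
times a square: an irreducible factor of odd multiplicity not associated to a member of `Ps`.
-/

set_option autoImplicit false

namespace Pool.Agent.TH573.HY

open Polynomial Finset
open Pool.Agent.TH573.SM

theorem factor2_aux (Ps : Finset ℤ[X]) (hPs : Fam Ps) (n : ℕ) :
    ∀ F : ℤ[X], F.natDegree ≤ n → F ≠ 0 →
    (∃ (c : ℤ) (S : Finset ℤ[X]) (G : ℤ[X]), S ⊆ Ps ∧ F = C c * (∏ p ∈ S, p) * G ^ 2) ∨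
    ∃ (P H : ℤ[X]) (k : ℕ), Irreducible P ∧ 0 < P.natDegree ∧ ¬ P ∣ H ∧
      ¬ P ∣ ∏ p ∈ Ps, p ∧ F = P ^ (2 * k + 1) * H := by
  classical
  induction n with
  | zero =>
    intro F hn hF
    left
    obtain ⟨c, hc⟩ := natDegree_eq_zero.1 (Nat.le_zero.1 hn)
    exact ⟨c, ∅, 1, by simp, by rw [← hc]; simp⟩
  | succ n ih =>
    intro F hn hF
    by_cases hd : F.natDegree = 0
    · left
      obtain ⟨c, hc⟩ := natDegree_eq_zero.1 hd
      exact ⟨c, ∅, 1, by simp, by rw [← hc]; simp⟩
    · obtain ⟨P, hP, hPd, hPF⟩ := exists_factor F (Nat.pos_of_ne_zero hd)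
      have hfin : FiniteMultiplicity P F :=
        FiniteMultiplicity.of_not_isUnit hP.not_isUnit hF
      obtain ⟨H, hH, hPH⟩ := hfin.exists_eq_pow_mul_and_not_dvd
      set m := multiplicity P F with hm
      have hm0 : m ≠ 0 := by
        intro h0
        rw [h0, pow_zero, one_mul] at hH
        rw [← hH] at hPH
        exact hPH hPF
      have hH0 : H ≠ 0 := by rintro rfl; exact hPH (dvd_zero _)
      have hP0 : P ≠ 0 := hP.ne_zero
      have hdeg : H.natDegree ≤ n := by
        have h1 : F.natDegree = m * P.natDegree + H.natDegree := by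
          conv_lhs => rw [hH]
          rw [natDegree_mul (pow_ne_zero _ hP0) hH0, natDegree_pow]
        have h2 : 1 ≤ m * P.natDegree := Nat.mul_pos (by omega) hPd
        omega
      -- the odd multiplicity of a polynomial which is not a member of the family
      by_cases hcase : Odd m ∧ ¬ P ∣ ∏ p ∈ Ps, p
      · obtain ⟨⟨k, hk⟩, hnd⟩ := hcase
        right
        exact ⟨P, H, k, hP, hPd, hPH, hnd, by rw [hH, hk]⟩
      · rcases ih H hdeg hH0 with ⟨c, S, G, hS, hG⟩ | ⟨P', H', k', hP', hPd', hPH', hnd', hF'⟩
        · left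
          rcases Nat.even_or_odd m with he | ho
          · obtain ⟨k, hk⟩ := he
            refine ⟨c, S, P ^ k * G, hS, ?_⟩
            rw [hH, hG, hk]
            ring
          · have hdv : P ∣ ∏ p ∈ Ps, p := by
              by_contra h
              exact hcase ⟨ho, h⟩
            obtain ⟨k, hk⟩ := ho
            obtain ⟨p, hp, hpd⟩ := (Prime.dvd_finsetProd_iff hP.prime _).1 hdv
            have has : Associated P p :=
              (hP.dvd_irreducible_iff_associated (hPs.1 p hp).1).1 hpd
            have hpS : p ∉ S := by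
              intro h
              apply hPH
              rw [hG]
              exact ((has.dvd.trans (Finset.dvd_prod_of_mem (fun p => p) h)).mul_left _).mul_right _
            obtain ⟨u, hu⟩ := has
            -- `P * u = p`
            have hu' : IsUnit ((u⁻¹ : ℤ[X]ˣ) : ℤ[X]) := Units.isUnit _
            obtain ⟨r, hr, hr'⟩ := Polynomial.isUnit_iff.1 hu'
            have hPp : P = C r * p := by
              rw [hr', ← hu]
              rw [mul_comm P, ← mul_assoc, Units.inv_mul, one_mul]
            refine ⟨r * c, insert p S, P ^ k * G, ?_, ?_⟩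
            · intro x hx
              rw [Finset.mem_insert] at hx
              rcases hx with rfl | hx
              · exact hp
              · exact hS hx
            · rw [Finset.prod_insert hpS]
              have e1 : F = P ^ (2 * k) * P * (C c * (∏ p ∈ S, p) * G ^ 2) := by
                rw [← pow_succ, ← hk, ← hG]
                exact hH
              have e2 : F = P ^ (2 * k) * (C r * p) * (C c * (∏ p ∈ S, p) * G ^ 2) := by
                rw [← hPp]
                exact e1
              rw [e2, C_mul]
              ring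
        · right
          refine ⟨P', P ^ m * H', k', hP', hPd', ?_, hnd', ?_⟩
          · intro h
            have hpr : Prime P' := hP'.prime
            rcases hpr.dvd_or_dvd h with h1 | h1
            · have h2 : P' ∣ P := hpr.dvd_of_dvd_pow h1
              have h3 : P ∣ P' := (hP'.dvd_irreducible_iff_associated hP).1 h2 |>.symm.dvd
              apply hPH
              rw [hF']
              exact (h3.trans (dvd_pow_self _ (by omega))).mul_right _
            · exact hPH' h1
          · conv_lhs => rw [hH, hF']
            ring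

theorem factor2 (Ps : Finset ℤ[X]) (hPs : Fam Ps) (F : ℤ[X])
    (hF : ¬ ∃ (c : ℤ) (S : Finset ℤ[X]) (G : ℤ[X]), S ⊆ Ps ∧
      F = C c * (∏ p ∈ S, p) * G ^ 2) :
    ∃ (P H : ℤ[X]) (k : ℕ), Irreducible P ∧ 0 < P.natDegree ∧ ¬ P ∣ H ∧
      ¬ P ∣ ∏ p ∈ Ps, p ∧ F = P ^ (2 * k + 1) * H := by
  have hF0 : F ≠ 0 := by
    rintro rfl
    exact hF ⟨0, ∅, 0, by simp, by simp⟩
  rcases factor2_aux Ps hPs _ F le_rfl hF0 with h | h
  · exact absurd h hF
  · exact h

end Pool.Agent.TH573.HY
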