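import Pool.Agent.TH573.HY.WT
import Pool.Agent.H220M.M6b

/-!
One scale: the probability of a large weighted sum.
-/

set_option autoImplicit false

namespace Pool.Agent.TH573.HY

open Finset MeasureTheory Filter Polynomial
open Pool.Agent.H220M

theorem log_div16 (j : ℕ) : Nat.log 2 (j / 16) = Nat.log 2 j - 4 := by
  have h : j / 16 = j / 2 / 2 / 2 / 2 := by
    rw [Nat.div_div_eq_div_mul, Nat.div_div_eq_div_mul, Nat.div_div_eq_div_mul]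
  rw [h, Nat.log_div_base, Nat.log_div_base, Nat.log_div_base, Nat.log_div_base]
  omega

/-- the part of the sum outside of the sifted set -/
theorem off_part (Ps : Finset ℤ[X]) (P : ℤ[X]) (hP : P = ∏ p ∈ Ps, p) (c κ j X : ℕ)
    (hX : X ≤ 2 ^ (2 * j)) (w : ℕ → ℝ) (hw : ∀ m, |w m| ≤ 1) (u : ℕ → ℝ) (hu : ∀ m, |u m| = 1) :
    |∑ m ∈ (range X).filter (fun m => ¬ Wp P c κ j m), w m * wt Ps m * u m| ≤
      ∑ m ∈ Exc Ps c κ j, wt Ps m := by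
  classical
  have h1 : ∀ m, |w m * wt Ps m * u m| ≤ wt Ps m := by
    intro m
    rw [abs_mul, abs_mul, hu, mul_one, abs_of_nonneg (wt_nonneg Ps m)]
    have := mul_le_mul_of_nonneg_right (hw m) (wt_nonneg Ps m)
    rwa [one_mul] at this
  refine (Finset.abs_sum_le_sum_abs _ _).trans ((Finset.sum_le_sum fun m _ => h1 m).trans ?_)
  rw [← Finset.sum_filter_ne_zero]
  apply Finset.sum_le_sum_of_subset_of_nonneg
  · intro m hm
    rw [mem_filter, mem_filter, mem_range] at hm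
    unfold Exc
    rw [mem_filter, mem_range, ← hP]
    exact ⟨by omega, hm.1.2, hm.2⟩
  · intro m _ _
    exact wt_nonneg Ps m

open Classical in
/-- one scale -/
theorem scale (hC0 : StmC0) (hM6b : StmM6b) (Ps : Finset ℤ[X]) (hPs : Fam Ps) (P : ℤ[X])
    (hP : P = ∏ p ∈ Ps, p) (F : ℤ[X]) (η : ℝ) (hη : 0 < η) :
    ∃ R : ℝ, 0 < R ∧ ∀ B : ℕ, ∀ᶠ j : ℕ in atTop, ∀ (g : ℕ → ℤˣ) (Q : Set ℕ),
      (∀ q ∈ Q, q.Prime) → ∀ w : ℕ → ℝ, (∀ m, |w m| ≤ 1) →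
      4 * Real.log R + 2 ≤
        ∑ q ∈ (Icc 1 (j / 16)).filter (fun q => (q ∈ Q ∧ SRoot F P q) ∧
          (Nat.log 2 (j / 16)) ^ 2 < q), (1 : ℝ) / q →
      ∀ r, 1 ≤ r → r < 2 * B →
        coins {ω : ℕ → Bool | η * ((2 ^ j * r : ℕ) : ℝ) < |∑ m ∈ range (2 ^ j * r),
          (w m * wt Ps m) * (((modif g Q ω ((F.eval ((m : ℤ) + 1)).natAbs) : ℤˣ) : ℤ) : ℝ)|}
          ≤ ENNReal.ofReal (1 / (j : ℝ) ^ 2) := by
  have hP0 : P ≠ 0 := by rw [hP]; exact prod_ne_zero' Ps hPs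
  obtain ⟨c, κ, h⟩ := sieveFor P hP0
  obtain ⟨hc1, hκ1, hρ, hsv⟩ := id h
  have hcκ : 1 ≤ c * κ := Nat.mul_pos hc1 hκ1
  obtain ⟨C, hC, hcc⟩ := class_count Ps hPs P hP c κ h
  obtain ⟨C', hC', hwt⟩ := wt_le Ps
  obtain ⟨k, hk⟩ : ∃ k, k = Ps.card := ⟨_, rfl⟩
  rw [← hk] at hcc hwt
  refine ⟨2 * C * C' ^ k / η, by positivity, fun B => ?_⟩
  have hlog : ∀ᶠ j : ℕ in atTop, 8 * (2 * (Nat.log 2 j + 1)) * F.natDegree ≤
      (Nat.log 2 (j / 16)) ^ 2 ∧ 2 * κ < (Nat.log 2 (j / 16)) ^ 2 := by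
    filter_upwards [eventually_ge_atTop (2 ^ (16 * F.natDegree + 2 * κ + 100))] with j hj
    have hL : 16 * F.natDegree + 2 * κ + 100 ≤ Nat.log 2 j :=
      Nat.le_log_of_pow_le (by norm_num) hj
    rw [log_div16]
    obtain ⟨L, hL'⟩ : ∃ L, Nat.log 2 j = L + 4 := ⟨Nat.log 2 j - 4, by omega⟩
    rw [hL'] at hL ⊢
    rw [Nat.add_sub_cancel]
    have h3 : 16 * F.natDegree + 2 * κ + 96 ≤ L := by omega
    constructor
    · nlinarith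
    · nlinarith
  filter_upwards [hcc, exc_sum Ps hPs c κ hcκ (η / 2) (by positivity), hlog,
    eventually_ge_atTop 1, eventually_ge_atTop (2 * B), ev_small_prime c κ hcκ] with j hj1 hj2 hj3
    hj4 hj5 hj6 g Q hQ w hw hS r hr1 hr2
  obtain ⟨Q₀, hQ₀⟩ : ∃ Q₀ : Finset ℕ, Q₀ = (Icc 1 (j / 16)).filter
    (fun q => (q ∈ Q ∧ SRoot F P q) ∧ (Nat.log 2 (j / 16)) ^ 2 < q) := ⟨_, rfl⟩
  rw [← hQ₀] at hS
  have hmem : ∀ q ∈ Q₀, q ∈ Q ∧ SRoot F P q ∧ (Nat.log 2 (j / 16)) ^ 2 < q ∧ q ≤ j / 16 := by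
    intro q hq
    rw [hQ₀, Finset.mem_filter, Finset.mem_Icc] at hq
    exact ⟨hq.2.1.1, hq.2.1.2, hq.2.2, hq.1.2⟩
  refine le_trans ?_ (ENNReal.ofReal_le_ofReal (M6.exp_le j hj4))
  refine hC0.2 g Q Q₀ (fun q hq => ⟨(hmem q hq).1, hQ q (hmem q hq).1⟩)
    (fun h => η * ((2 ^ j * r : ℕ) : ℝ) < |∑ m ∈ range (2 ^ j * r), (w m * wt Ps m) *
      (((h ((F.eval ((m : ℤ) + 1)).natAbs) : ℤˣ) : ℤ) : ℝ)|)
    (hM6b g Q F (fun m => w m * wt Ps m) (2 ^ j * r) (η * ((2 ^ j * r : ℕ) : ℝ))) _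
    (Real.exp_nonneg _) ?_
  intro g'
  obtain ⟨X, hX⟩ : ∃ X, X = 2 ^ j * r := ⟨_, rfl⟩
  obtain ⟨L, hL1, hL2⟩ := hj1 r hr1 Q₀ (fun q hq => ⟨hQ q (hmem q hq).1,
    hj3.2.trans (hmem q hq).2.2.1, (hmem q hq).2.2.2⟩)
  rw [← hX] at hL1 hL2 ⊢
  have hXj : 2 ^ j ≤ X := by
    rw [hX]
    exact Nat.le_mul_of_pos_right _ hr1
  have hX2 : X ≤ 2 ^ (2 * j) := by
    have h2 : j < 2 ^ j := Nat.lt_two_pow_self
    calc X = 2 ^ j * r := hX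
      _ ≤ 2 ^ j * 2 ^ j := Nat.mul_le_mul_left _ (by omega)
      _ = 2 ^ (2 * j) := by rw [← pow_add]; congr 1; ring
  have hX0 : (0 : ℝ) < X := by
    have h2 : 0 < 2 ^ j := by positivity
    exact_mod_cast (by omega : 0 < X)
  obtain ⟨I, hI⟩ : ∃ I, I = (range X).filter (Wp P c κ j) := ⟨_, rfl⟩
  rw [← hI] at hL1
  obtain ⟨G, hG⟩ : ∃ G : ℕ → ℝ, G = fun m => w m * wt Ps m *
    (((g' ((F.eval ((m : ℤ) + 1)).natAbs) : ℤˣ) : ℤ) : ℝ) := ⟨_, rfl⟩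
  have hGI : ∀ m ∈ I, |G m| ≤ (C' * j) ^ k := by
    intro m hm
    rw [hI, mem_filter, mem_range] at hm
    rw [hG]
    show |w m * wt Ps m * (((g' ((F.eval ((m : ℤ) + 1)).natAbs) : ℤˣ) : ℤ) : ℝ)| ≤ _
    rw [abs_mul, abs_mul, M6.unit_abs, mul_one, abs_of_nonneg (wt_nonneg Ps m)]
    have h2 := mul_le_mul_of_nonneg_right (hw m) (wt_nonneg Ps m)
    rw [one_mul] at h2
    exact h2.trans (hwt j hj4 m (by omega))
  have hIQ : ∀ m ∈ I, ∀ q ∈ Q₀, ¬ (q : ℤ) ∣ P.eval ((m : ℤ) + 1) := by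
    intro m hm q hq
    rw [hI, mem_filter] at hm
    refine hm.2 q ?_
    unfold Pool.Agent.H410R2.ED.Pr
    rw [mem_filter, mem_range]
    have h2 := (hmem q hq).2.2.2
    exact ⟨by omega, hQ q (hmem q hq).1, hj3.2.trans (hmem q hq).2.2.1⟩
  have hcount := bad_count F P (2 * (Nat.log 2 j + 1)) (by omega) Q₀
    (fun q hq => ⟨hQ q (hmem q hq).1, (hmem q hq).2.1, hj3.1.trans (hmem q hq).2.2.1.le,
      bet_large P q κ (hQ q (hmem q hq).1) (hj3.2.trans (hmem q hq).2.2.1)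
        (hρ q (hQ q (hmem q hq).1) (hj3.2.trans (hmem q hq).2.2.1))⟩)
    I hIQ L hL1 G ((C' * j) ^ k) (η / 2 * X) (2 * C * C' ^ k / η) (by positivity) hGI
    (by positivity) (by positivity) (by
      have hj0 : (j : ℝ) ≠ 0 := by
        have : (0 : ℝ) < j := by exact_mod_cast hj4
        exact this.ne'
      calc (C' * j) ^ k * ((L : ℝ) * ∏ q ∈ Q₀, (bet P q : ℝ))
          ≤ (C' * j) ^ k * (C * ((X : ℝ) / (j : ℝ) ^ k)) :=
            mul_le_mul_of_nonneg_left hL2 (by positivity)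
        _ = 2 * C * C' ^ k / η * (η / 2 * X) := by
            rw [mul_pow]
            field_simp) hS
  refine le_trans ?_ hcount
  rw [Nat.cast_le]
  apply Finset.card_le_card
  intro S hS'
  rw [Finset.mem_filter] at hS' ⊢
  refine ⟨hS'.1, ?_⟩
  have h2 := hS'.2
  have e : ∀ m : ℕ, w m * wt Ps m * (((g' ((F.eval ((m : ℤ) + 1)).natAbs) *
      flipU S ((F.eval ((m : ℤ) + 1)).natAbs) : ℤˣ) : ℤ) : ℝ) =
      G m * (((flipU S ((F.eval ((m : ℤ) + 1)).natAbs) : ℤˣ) : ℤ) : ℝ) := by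
    intro m
    rw [hG, Units.val_mul, Int.cast_mul]
    ring
  rw [← Finset.sum_filter_add_sum_filter_not (range X) (Wp P c κ j)] at h2
  have h3 := off_part Ps P hP c κ j X hX2 w hw (fun m =>
    (((g' ((F.eval ((m : ℤ) + 1)).natAbs) *
      flipU S ((F.eval ((m : ℤ) + 1)).natAbs) : ℤˣ) : ℤ) : ℝ)) (fun m => M6.unit_abs _)
  have h4 := h3.trans hj2
  have h5 := abs_add_le (∑ m ∈ (range X).filter (Wp P c κ j), w m * wt Ps m *
    (((g' ((F.eval ((m : ℤ) + 1)).natAbs) *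
      flipU S ((F.eval ((m : ℤ) + 1)).natAbs) : ℤˣ) : ℤ) : ℝ))
    (∑ m ∈ (range X).filter (fun m => ¬ Wp P c κ j m), w m * wt Ps m *
    (((g' ((F.eval ((m : ℤ) + 1)).natAbs) *
      flipU S ((F.eval ((m : ℤ) + 1)).natAbs) : ℤˣ) : ℤ) : ℝ))
  have h6 : (2 : ℝ) ^ j ≤ X := by exact_mod_cast hXj
  have h7 : η / 2 * 2 ^ j ≤ η / 2 * X := mul_le_mul_of_nonneg_left h6 (by positivity)
  rw [hI, ← Finset.sum_congr rfl (fun m _ => e m)]
  linarith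

end Pool.Agent.TH573.HY
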