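import Pool.Agent.TH573.HY.M7

/-!
Borel-Cantelli and interpolation between scales.
-/

set_option autoImplicit false

namespace Pool.Agent.TH573.HY

open Finset MeasureTheory Filter Polynomial
open Pool.Agent.H220M
open scoped ENNReal

theorem one_pair (hC0 : StmC0) (hM6b : StmM6b) (Ps : Finset ℤ[X]) (hPs : Fam Ps) (P : ℤ[X])
    (hP : P = ∏ p ∈ Ps, p) (F : ℤ[X]) (g : ℕ → ℤˣ) (Q : Set ℕ) (hQ : ∀ q ∈ Q, q.Prime)
    (w : ℕ → ℝ) (hw : ∀ m, |w m| ≤ 1) (hT : Thick {q | q ∈ Q ∧ SRoot F P q}) (η : ℝ) (hη : 0 < η)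
    (B : ℕ) (hB : 1 ≤ B) :
    ∀ᵐ ω ∂coins, ∀ᶠ j : ℕ in atTop, ∀ r : ℕ, B ≤ r → r < 2 * B →
      |∑ m ∈ range (2 ^ j * r), (w m * wt Ps m) *
        (((modif g Q ω ((F.eval ((m : ℤ) + 1)).natAbs) : ℤˣ) : ℤ) : ℝ)|
        ≤ η * ((2 ^ j * r : ℕ) : ℝ) := by
  classical
  obtain ⟨R, hR, hsc⟩ := scale hC0 hM6b Ps hPs P hP F η hη
  have h1 : ∀ᶠ j : ℕ in atTop, 4 * Real.log R + 2 ≤
      ∑ q ∈ (Icc 1 (j / 16)).filter (fun q => (q ∈ Q ∧ SRoot F P q) ∧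
        (Nat.log 2 (j / 16)) ^ 2 < q), (1 : ℝ) / q := by
    have h2 := hT.comp (Nat.tendsto_div_const_atTop (by norm_num : (16 : ℕ) ≠ 0))
    have h3 := h2.eventually_ge_atTop (4 * Real.log R + 2)
    filter_upwards [h3] with j hj
    refine hj.trans (le_of_eq ?_)
    simp only [Function.comp]
  obtain ⟨j₀, hj₀⟩ := eventually_atTop.1 (h1.and ((hsc B).and (eventually_ge_atTop 1)))
  obtain ⟨E, hE⟩ : ∃ E : ℕ → Set (ℕ → Bool), E = fun j => ⋃ r ∈ Finset.Ico B (2 * B),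
    {ω : ℕ → Bool | η * ((2 ^ j * r : ℕ) : ℝ) < |∑ m ∈ range (2 ^ j * r), (w m * wt Ps m) *
      (((modif g Q ω ((F.eval ((m : ℤ) + 1)).natAbs) : ℤˣ) : ℤ) : ℝ)|} := ⟨_, rfl⟩
  have hEj : ∀ j, j₀ ≤ j → coins (E j) ≤ ENNReal.ofReal (B * (1 / (j : ℝ) ^ 2)) := by
    intro j hj
    obtain ⟨c1, c2, c3⟩ := hj₀ j hj
    rw [hE]
    refine (measure_biUnion_finset_le _ _).trans ?_
    refine (Finset.sum_le_sum (fun r hr => ?_)).trans
      (le_of_eq (?_ : ∑ r ∈ Finset.Ico B (2 * B), ENNReal.ofReal (1 / (j : ℝ) ^ 2) = _))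
    · rw [Finset.mem_Ico] at hr
      exact c2 g Q hQ w hw c1 r (hB.trans hr.1) hr.2
    · rw [Finset.sum_const, Nat.card_Ico, nsmul_eq_mul, ENNReal.ofReal_mul (Nat.cast_nonneg B),
        ENNReal.ofReal_natCast]
      congr 2
      omega
  have hBC := ae_eventually_notMem (μ := coins) (s := fun j => if j₀ ≤ j then E j else ∅) (by
    have hle : ∀ j : ℕ, coins (if j₀ ≤ j then E j else ∅) ≤
        ENNReal.ofReal (B * (1 / (j : ℝ) ^ 2)) := by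
      intro j
      split_ifs with h
      · exact hEj j h
      · rw [measure_empty]; exact bot_le
    have hsum : Summable (fun j : ℕ => (B : ℝ) * (1 / (j : ℝ) ^ 2)) :=
      (Real.summable_one_div_nat_pow.2 (by norm_num)).mul_left _
    refine ne_top_of_le_ne_top ?_ (ENNReal.tsum_le_tsum hle)
    rw [← ENNReal.ofReal_tsum_of_nonneg (fun j => by positivity) hsum]
    exact ENNReal.ofReal_ne_top)
  filter_upwards [hBC] with ω hω
  filter_upwards [hω, eventually_ge_atTop j₀] with j hj hjj r hr1 hr2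
  rw [if_pos hjj, hE] at hj
  by_contra hc
  push Not at hc
  apply hj
  simp only [Set.mem_iUnion, Set.mem_ofPred_eq]
  exact ⟨r, Finset.mem_Ico.2 ⟨hr1, hr2⟩, hc⟩

theorem interp (Ps : Finset ℤ[X]) (hPs : Fam Ps) (a : ℕ → ℝ) (ha : ∀ m, |a m| ≤ wt Ps m)
    (h : ∀ η : ℝ, 0 < η → ∀ B : ℕ, 1 ≤ B → ∀ᶠ j : ℕ in atTop, ∀ r : ℕ, B ≤ r → r < 2 * B →
      |∑ m ∈ range (2 ^ j * r), a m| ≤ η * ((2 ^ j * r : ℕ) : ℝ)) :
    Tendsto (fun x : ℕ => (∑ m ∈ range x, a m) / x) atTop (nhds 0) := by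
  obtain ⟨c, κ, hsv⟩ := sieveFor (∏ p ∈ Ps, p) (prod_ne_zero' Ps hPs)
  obtain ⟨C, hC, hsh⟩ := short Ps hPs _ rfl c κ hsv
  rw [Metric.tendsto_atTop]
  intro ε hε
  obtain ⟨B, hB⟩ : ∃ B : ℕ, 4 * C / ε < (B : ℝ) := exists_nat_gt _
  have h4 : 0 < 4 * C / ε := by positivity
  have hBpos : (0 : ℝ) < (B : ℝ) := h4.trans hB
  have hB1 : 0 < B := by exact_mod_cast hBpos
  have hBε : 4 * C < ε * (B : ℝ) := by
    rw [div_lt_iff₀ hε] at hB
    linarith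
  obtain ⟨J, hJ⟩ := eventually_atTop.1 ((h (ε / 4) (by positivity) B hB1).and
    (hsh.and (eventually_ge_atTop (2 * B))))
  refine ⟨2 ^ J * B, fun x hx => ?_⟩
  have hxB : 2 ^ J ≤ x / B := (Nat.le_div_iff_mul_le hB1).2 hx
  have hxB0 : x / B ≠ 0 := by
    have : 0 < 2 ^ J := by positivity
    omega
  obtain ⟨j, hj⟩ : ∃ j, j = Nat.log 2 (x / B) := ⟨_, rfl⟩
  have hjJ : J ≤ j := by
    rw [hj]
    exact Nat.le_log_of_pow_le one_lt_two hxB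
  have h1 : 2 ^ j ≤ x / B := by
    rw [hj]
    exact Nat.pow_log_le_self 2 hxB0
  have h2 : x / B < 2 ^ (j + 1) := by
    rw [hj]
    exact Nat.lt_pow_succ_log_self one_lt_two _
  have h1' : 2 ^ j * B ≤ x := (Nat.le_div_iff_mul_le hB1).1 h1
  have h2' : x < 2 ^ (j + 1) * B := (Nat.div_lt_iff_lt_mul hB1).1 h2
  have hpj : 0 < 2 ^ j := by positivity
  obtain ⟨r, hr⟩ : ∃ r, r = x / 2 ^ j := ⟨_, rfl⟩
  have hr1 : B ≤ r := by
    rw [hr, Nat.le_div_iff_mul_le hpj]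
    linarith
  have hr2 : r < 2 * B := by
    rw [hr, Nat.div_lt_iff_lt_mul hpj]
    calc x < 2 ^ (j + 1) * B := h2'
      _ = 2 * B * 2 ^ j := by ring
  have hx' : 2 ^ j * r ≤ x := by
    rw [hr]
    exact Nat.mul_div_le x (2 ^ j)
  have hx'' : x < 2 ^ j * r + 2 ^ j := by
    rw [hr]
    have := Nat.lt_mul_div_succ x hpj
    linarith
  obtain ⟨hs0, hs1, hs2⟩ := hJ j hjJ
  have hs := hs0 r hr1 hr2
  have hjj : j < 2 ^ j := Nat.lt_two_pow_self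
  have hN : 2 ^ j * r + 2 ^ j ≤ 2 ^ (2 * j) := by
    calc 2 ^ j * r + 2 ^ j = 2 ^ j * (r + 1) := by ring
      _ ≤ 2 ^ j * 2 ^ j := Nat.mul_le_mul_left _ (by omega)
      _ = 2 ^ (2 * j) := by rw [← pow_add]; congr 1; ring
  have hsplit : ∑ m ∈ range x, a m =
      ∑ m ∈ range (2 ^ j * r), a m + ∑ m ∈ Ico (2 ^ j * r) x, a m := by
    rw [Finset.range_eq_Ico, Finset.range_eq_Ico,
      Finset.sum_Ico_consecutive a (Nat.zero_le _) hx']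
  have htail : |∑ m ∈ Ico (2 ^ j * r) x, a m| ≤ C * (2 : ℝ) ^ j := by
    calc |∑ m ∈ Ico (2 ^ j * r) x, a m| ≤ ∑ m ∈ Ico (2 ^ j * r) x, |a m| :=
          Finset.abs_sum_le_sum_abs _ _
      _ ≤ ∑ m ∈ Ico (2 ^ j * r) x, wt Ps m := Finset.sum_le_sum fun m _ => ha m
      _ ≤ ∑ m ∈ Ico (2 ^ j * r) (2 ^ j * r + 2 ^ j), wt Ps m := by
          apply Finset.sum_le_sum_of_subset_of_nonneg
          · exact Finset.Ico_subset_Ico_right hx''.le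
          · intro m _ _
            exact wt_nonneg Ps m
      _ ≤ C * (2 : ℝ) ^ j := hs1 _ hN
  have hpx : (2 : ℝ) ^ j * B ≤ (x : ℝ) := by exact_mod_cast h1'
  have hpj' : (0 : ℝ) < (2 : ℝ) ^ j := by positivity
  have hxpos : (0 : ℝ) < (x : ℝ) := lt_of_lt_of_le (by positivity) hpx
  have hpow : C * (2 : ℝ) ^ j ≤ ε / 4 * x := by
    nlinarith
  have hx3 : ((2 ^ j * r : ℕ) : ℝ) ≤ (x : ℝ) := by exact_mod_cast hx'
  have htot : |∑ m ∈ range x, a m| ≤ ε / 2 * x := by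
    rw [hsplit]
    refine (abs_add_le _ _).trans ?_
    have h5 : ε / 4 * ((2 ^ j * r : ℕ) : ℝ) ≤ ε / 4 * x :=
      mul_le_mul_of_nonneg_left hx3 (by positivity)
    linarith
  rw [Real.dist_eq, sub_zero, abs_div, abs_of_pos hxpos, div_lt_iff₀ hxpos]
  refine lt_of_le_of_lt htot ?_
  nlinarith

/-- almost sure cancellation for one family of polynomials, one polynomial and one weight -/
theorem weighted (hC0 : StmC0) (hM6b : StmM6b) (Ps : Finset ℤ[X]) (hPs : Fam Ps) (P : ℤ[X])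
    (hP : P = ∏ p ∈ Ps, p) (F : ℤ[X]) (g : ℕ → ℤˣ) (Q : Set ℕ) (hQ : ∀ q ∈ Q, q.Prime)
    (w : ℕ → ℝ) (hw : ∀ m, |w m| ≤ 1) (hT : Thick {q | q ∈ Q ∧ SRoot F P q}) :
    ∀ᵐ ω ∂coins, Tendsto (fun x : ℕ => (∑ m ∈ range x, (w m * wt Ps m) *
      (((modif g Q ω ((F.eval ((m : ℤ) + 1)).natAbs) : ℤˣ) : ℤ) : ℝ)) / x) atTop (nhds 0) := by
  have h1 : ∀ᵐ ω ∂coins, ∀ i B : ℕ, 1 ≤ B → ∀ᶠ j : ℕ in atTop, ∀ r : ℕ, B ≤ r → r < 2 * B →
      |∑ m ∈ range (2 ^ j * r), (w m * wt Ps m) *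
        (((modif g Q ω ((F.eval ((m : ℤ) + 1)).natAbs) : ℤˣ) : ℤ) : ℝ)|
        ≤ (1 / ((i : ℝ) + 1)) * ((2 ^ j * r : ℕ) : ℝ) := by
    rw [ae_all_iff]
    intro i
    rw [ae_all_iff]
    intro B
    by_cases hB : 1 ≤ B
    · filter_upwards [one_pair hC0 hM6b Ps hPs P hP F g Q hQ w hw hT (1 / ((i : ℝ) + 1))
        (by positivity) B hB] with ω hω _
      exact hω
    · exact Filter.Eventually.of_forall fun ω h => absurd h hB
  filter_upwards [h1] with ω hω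
  apply interp Ps hPs (fun m => (w m * wt Ps m) *
      (((modif g Q ω ((F.eval ((m : ℤ) + 1)).natAbs) : ℤˣ) : ℤ) : ℝ))
  · intro m
    show |(w m * wt Ps m) * (((modif g Q ω ((F.eval ((m : ℤ) + 1)).natAbs) : ℤˣ) : ℤ) : ℝ)| ≤ _
    rw [abs_mul, abs_mul, M6.unit_abs, mul_one, abs_of_nonneg (wt_nonneg Ps m)]
    have h2 := mul_le_mul_of_nonneg_right (hw m) (wt_nonneg Ps m)
    rwa [one_mul] at h2
  · intro η hη B hB
    obtain ⟨i, hi⟩ := exists_nat_one_div_lt hη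
    filter_upwards [hω i B hB] with j hj r hr1 hr2
    refine (hj r hr1 hr2).trans ?_
    exact mul_le_mul_of_nonneg_right hi.le (Nat.cast_nonneg _)

end Pool.Agent.TH573.HY
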