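import Pool.Agent.H220M.Base4
import Pool.Agent.H220M.M4a

/-!
Local count for tuples of residues modulo `q ^ 2` at which a second polynomial `P` is coprime to
`q`.
-/

set_option autoImplicit false

namespace Pool.Agent.TH573.HY

open Finset Polynomial
open Pool.Agent.H220M

/-- `F` has a simple root modulo `q` which is not a root of `P` -/
def SRoot (F P : ℤ[X]) (q : ℕ) : Prop :=
  ∃ a : ℤ, (q : ℤ) ∣ F.eval a ∧ ¬ (q : ℤ) ∣ F.derivative.eval a ∧ ¬ (q : ℤ) ∣ P.eval a

open Classical in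
/-- the residues modulo `q ^ 2` at which `P` is coprime to `q` -/
noncomputable def bet (P : ℤ[X]) (q : ℕ) : ℕ :=
  ((range (q ^ 2)).filter (fun r : ℕ => ¬ (q : ℤ) ∣ P.eval ((r : ℤ) + 1))).card

open Classical in
/-- the residues with one simple zero -/
theorem simple_class (F P : ℤ[X]) (q : ℕ) (hq : q.Prime) (hs : SRoot F P q) :
    q ≤ ((range (q ^ 2)).filter (fun r : ℕ => ((q : ℤ) ∣ F.eval ((r : ℤ) + 1) ∧
      ¬ (q : ℤ) ^ 2 ∣ F.eval ((r : ℤ) + 1)) ∧ ¬ (q : ℤ) ∣ P.eval ((r : ℤ) + 1))).card + 1 := by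
  obtain ⟨a, ha, hb, hPa⟩ := hs
  have hq0 : (0 : ℤ) < (q : ℤ) := by exact_mod_cast hq.pos
  have hqq : (0 : ℤ) < (q : ℤ) ^ 2 := by positivity
  have hpr : Prime (q : ℤ) := Nat.prime_iff_prime_int.mp hq
  -- the special residues
  let ρ : ℕ → ℕ := fun s => ((a + q * s - 1) % (q : ℤ) ^ 2).toNat
  have hρ : ∀ s, ((ρ s : ℕ) : ℤ) = (a + q * s - 1) % (q : ℤ) ^ 2 := fun s =>
    Int.toNat_of_nonneg (Int.emod_nonneg _ hqq.ne')
  have hρlt : ∀ s, ρ s < q ^ 2 := by
    intro s
    have := Int.emod_lt_of_pos (a + q * s - 1) hqq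
    rw [← hρ] at this
    exact_mod_cast this
  have hρd : ∀ s, (q : ℤ) ^ 2 ∣ (((ρ s : ℕ) : ℤ) + 1) - (a + q * s) := by
    intro s
    rw [hρ]
    have h1 := Int.emod_add_mul_ediv (a + q * s - 1) ((q : ℤ) ^ 2)
    refine ⟨-((a + q * s - 1) / (q : ℤ) ^ 2), ?_⟩
    linarith
  have hinj : Set.InjOn ρ (range q : Set ℕ) := by
    intro s hs s' hs' h
    have hs1 : s < q := by simpa using hs
    have hs2 : s' < q := by simpa using hs'
    have h1 := hρd s
    have h2 := hρd s'
    rw [h] at h1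
    have h3 : (q : ℤ) ^ 2 ∣ q * ((s : ℤ) - s') := by
      have := dvd_sub h2 h1
      have e : ((((ρ s' : ℕ) : ℤ) + 1) - (a + q * s')) - ((((ρ s' : ℕ) : ℤ) + 1) - (a + q * s)) =
        q * ((s : ℤ) - s') := by ring
      rwa [e] at this
    rw [sq] at h3
    have h4 : (q : ℤ) ∣ (s : ℤ) - s' := (mul_dvd_mul_iff_left hq0.ne').mp h3
    have h5 : (s : ℤ) - s' = 0 := by
      apply Int.eq_zero_of_abs_lt_dvd h4
      rw [abs_lt]
      constructor <;> omega
    omega
  obtain ⟨c, hc⟩ := ha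
  have hval : ∀ s : ℕ, ∃ k : ℤ, F.eval (a + q * s) =
      q * (c + s * F.derivative.eval a) + (q : ℤ) ^ 2 * k := by
    intro s
    obtain ⟨k, hk⟩ := Polynomial.binomExpansion F a (q * s)
    refine ⟨k * s ^ 2, ?_⟩
    rw [hk, hc]; ring
  have hdq : ∀ s : ℕ, (q : ℤ) ∣ F.eval (a + q * s) := by
    intro s
    obtain ⟨k, hk⟩ := hval s
    rw [hk]
    exact ⟨c + s * F.derivative.eval a + q * k, by ring⟩
  have hdq2 : ∀ s : ℕ, (q : ℤ) ^ 2 ∣ F.eval (a + q * s) → (q : ℤ) ∣ c + s * F.derivative.eval a := by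
    intro s hs
    obtain ⟨k, hk⟩ := hval s
    rw [hk] at hs
    have h1 : (q : ℤ) ^ 2 ∣ q * (c + s * F.derivative.eval a) := by
      rwa [dvd_add_left (dvd_mul_right _ _)] at hs
    rw [sq] at h1
    exact (mul_dvd_mul_iff_left hq0.ne').mp h1
  -- bad s
  let B : Finset ℕ := (range q).filter (fun s : ℕ => (q : ℤ) ^ 2 ∣ F.eval (a + q * s))
  have hB : B.card ≤ 1 := by
    rw [Finset.card_le_one]
    intro s hs s' hs'
    rw [Finset.mem_filter, Finset.mem_range] at hs hs'
    have h1 := hdq2 s hs.2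
    have h2 := hdq2 s' hs'.2
    have h3 : (q : ℤ) ∣ ((s : ℤ) - s') * F.derivative.eval a := by
      have := dvd_sub h1 h2
      have e : (c + s * F.derivative.eval a) - (c + s' * F.derivative.eval a) =
        ((s : ℤ) - s') * F.derivative.eval a := by ring
      rwa [e] at this
    have h4 : (q : ℤ) ∣ (s : ℤ) - s' := (hpr.dvd_or_dvd h3).resolve_right hb
    have h5 : (s : ℤ) - s' = 0 := by
      apply Int.eq_zero_of_abs_lt_dvd h4
      rw [abs_lt]
      constructor <;> omega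
    omega
  let E : Finset ℕ := ((range q) \ B).image ρ
  have hE : q ≤ E.card + 1 := by
    have h1 : E.card = ((range q) \ B).card := by
      apply Finset.card_image_of_injOn
      refine hinj.mono ?_
      intro s hs
      simp only [Finset.coe_sdiff, Set.mem_sdiff] at hs
      exact hs.1
    have h2 : (range q).card ≤ ((range q) \ B).card + B.card := by
      have := Finset.le_card_sdiff B (range q)
      omega
    rw [Finset.card_range] at h2
    omega
  refine hE.trans (Nat.add_le_add_right (Finset.card_le_card ?_) 1)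
  intro r hrE
  obtain ⟨s, hs, rfl⟩ := Finset.mem_image.mp hrE
  rw [Finset.mem_sdiff] at hs
  rw [mem_filter, mem_range]
  have h1 := P2.per F q (((ρ s : ℕ) : ℤ) + 1) (a + q * s) (hρd s)
  refine ⟨hρlt s, ?_, ?_⟩
  · rw [h1.1, h1.2]
    refine ⟨hdq s, fun h2 => hs.2 ?_⟩
    exact Finset.mem_filter.mpr ⟨hs.1, h2⟩
  · intro h
    apply hPa
    have h2 : (q : ℤ) ∣ (((ρ s : ℕ) : ℤ) + 1) - a := by
      have h3 := (dvd_pow_self (q : ℤ) two_ne_zero).trans (hρd s)
      have e : (((ρ s : ℕ) : ℤ) + 1) - a = ((((ρ s : ℕ) : ℤ) + 1) - (a + q * s)) + q * s := by ring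
      rw [e]
      exact dvd_add h3 (dvd_mul_right _ _)
    exact (dvd_iff_dvd_of_dvd_sub (h2.trans (Polynomial.sub_dvd_eval_sub _ _ P))).1 h

theorem sroot_simple {F P : ℤ[X]} {q : ℕ} (h : SRoot F P q) : SimpleRoot F q := by
  obtain ⟨a, h1, h2, _⟩ := h
  exact ⟨a, h1, h2⟩

open Classical in
/-- local count -/
theorem local_count (F P : ℤ[X]) (q s : ℕ) (hq : q.Prime) (hsr : SRoot F P q) (hs : 1 ≤ s)
    (hdq : 8 * s * F.natDegree ≤ q) (hβ : q ^ 2 ≤ 2 * bet P q) :
    (((Fintype.piFinset (fun _ : Fin (2 * s) => range (q ^ 2))).filter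
        (fun τ => (∀ i, ¬ (q : ℤ) ∣ P.eval ((τ i : ℤ) + 1)) ∧ ¬ one F q τ)).card : ℝ)
      ≤ (bet P q : ℝ) ^ (2 * s) * (1 - s / (2 * q)) := by
  obtain ⟨hd1, hN0⟩ := tM4a F q hq (sroot_simple hsr)
  have hq0 : 0 < q := hq.pos
  have hqR : (0 : ℝ) < q := by exact_mod_cast hq0
  have hsR : (1 : ℝ) ≤ s := by exact_mod_cast hs
  obtain ⟨D, hDdef⟩ : ∃ D : Finset ℕ, D = (range (q ^ 2)).filter
    (fun r : ℕ => ¬ (q : ℤ) ∣ P.eval ((r : ℤ) + 1)) := ⟨_, rfl⟩
  have hDc : D.card = bet P q := by rw [hDdef]; rfl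
  have hDmem : ∀ r, r ∈ D ↔ r < q ^ 2 ∧ ¬ (q : ℤ) ∣ P.eval ((r : ℤ) + 1) := by
    intro r; rw [hDdef]; simp
  obtain ⟨A, hAdef⟩ : ∃ A : Finset ℕ, ∀ r, r ∈ A ↔ r ∈ D ∧
      ((q : ℤ) ∣ F.eval ((r : ℤ) + 1) ∧ ¬ (q : ℤ) ^ 2 ∣ F.eval ((r : ℤ) + 1)) :=
    ⟨D.filter (fun r : ℕ =>
      ((q : ℤ) ∣ F.eval ((r : ℤ) + 1) ∧ ¬ (q : ℤ) ^ 2 ∣ F.eval ((r : ℤ) + 1))), by
      intro r; simp⟩
  obtain ⟨N, hNdef⟩ : ∃ N : Finset ℕ, ∀ r, r ∈ N ↔ r ∈ D ∧
      ¬ (q : ℤ) ∣ F.eval ((r : ℤ) + 1) :=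
    ⟨D.filter (fun r : ℕ => ¬ (q : ℤ) ∣ F.eval ((r : ℤ) + 1)), by
      intro r; simp⟩
  have hA : (q : ℝ) / 2 ≤ (A.card : ℝ) := by
    have h1 := simple_class F P q hq hsr
    have h2 : q ≤ A.card + 1 := by
      refine h1.trans (Nat.add_le_add_right (card_le_card ?_) 1)
      intro r hr
      rw [mem_filter, mem_range] at hr
      rw [hAdef, hDmem]
      exact ⟨⟨hr.1, hr.2.2⟩, hr.2.1⟩
    have h3 : (q : ℝ) ≤ A.card + 1 := by exact_mod_cast h2
    have h4 : (2 : ℝ) ≤ q := by exact_mod_cast hq.two_le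
    linarith
  have hβ1 : (bet P q : ℝ) ≤ (q : ℝ) ^ 2 := by
    have : bet P q ≤ q ^ 2 := by
      unfold bet
      exact (card_filter_le _ _).trans (card_range _).le
    exact_mod_cast this
  have hβ2 : (q : ℝ) ^ 2 ≤ 2 * bet P q := by exact_mod_cast hβ
  have hβ0 : (0 : ℝ) < bet P q := by
    have : (0 : ℝ) < (q : ℝ) ^ 2 := by positivity
    linarith
  have hN : (bet P q : ℝ) * (1 - 2 * F.natDegree / q) ≤ (N.card : ℝ) := by
    have h2 : D.card ≤ N.card +
        ((range (q ^ 2)).filter (fun r : ℕ => (q : ℤ) ∣ F.eval ((r : ℤ) + 1))).card := by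
      calc D.card 
        _ ≤ (N ∪ ((range (q ^ 2)).filter (fun r : ℕ => (q : ℤ) ∣ F.eval ((r : ℤ) + 1)))).card := by
          apply card_le_card
          intro r hr
          rw [mem_union, hNdef, mem_filter, mem_range]
          by_cases hc : ((q : ℤ) ∣ F.eval ((r : ℤ) + 1))
          · exact Or.inr ⟨((hDmem r).1 hr).1, hc⟩
          · exact Or.inl ⟨hr, hc⟩
        _ ≤ _ := card_union_le _ _
    have h3 : D.card ≤ N.card + q * F.natDegree := by
      refine h2.trans (Nat.add_le_add_left ?_ _)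
      convert hN0
    rw [hDc] at h3
    have h3R : (bet P q : ℝ) ≤ N.card + q * F.natDegree := by exact_mod_cast h3
    have h5 : (q : ℝ) * F.natDegree ≤ bet P q * (2 * F.natDegree / q) := by
      rw [← mul_div_assoc, le_div_iff₀ hqR]
      have : (0 : ℝ) ≤ F.natDegree := Nat.cast_nonneg _
      nlinarith
    rw [mul_sub, mul_one]
    linarith
  have hcount : 2 * s * (A.card * N.card ^ (2 * s - 1)) +
      ((Fintype.piFinset (fun _ : Fin (2 * s) => range (q ^ 2))).filter
        (fun τ => (∀ i, ¬ (q : ℤ) ∣ P.eval ((τ i : ℤ) + 1)) ∧ ¬ one F q τ)).card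
        ≤ (bet P q) ^ (2 * s) := by
    have hdisj : ∀ i ∈ (univ : Finset (Fin (2 * s))), ∀ j ∈ (univ : Finset (Fin (2 * s))), i ≠ j →
        Disjoint (Fintype.piFinset (fun i' : Fin (2 * s) => if i' = i then A else N))
          (Fintype.piFinset (fun i' : Fin (2 * s) => if i' = j then A else N)) := by
      intro i _ j _ hij
      rw [Finset.disjoint_left]
      intro τ h1 h2
      rw [Fintype.mem_piFinset] at h1 h2
      have h3 := h1 i
      have h4 := h2 i
      rw [if_pos rfl, hAdef] at h3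
      rw [if_neg hij, hNdef] at h4
      exact h4.2 h3.2.1
    have hcardB : ((univ : Finset (Fin (2 * s))).biUnion (fun i =>
        Fintype.piFinset (fun i' : Fin (2 * s) => if i' = i then A else N))).card
        = 2 * s * (A.card * N.card ^ (2 * s - 1)) := by
      rw [card_biUnion hdisj]
      have : ∀ i ∈ (univ : Finset (Fin (2 * s))),
          (Fintype.piFinset (fun i' : Fin (2 * s) => if i' = i then A else N)).card
          = A.card * N.card ^ (2 * s - 1) := by
        intro i _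
        rw [Fintype.card_piFinset]
        rw [← Finset.mul_prod_erase univ _ (mem_univ i), if_pos rfl]
        congr 1
        rw [Finset.prod_congr rfl (g := fun _ => N.card) (fun j hj => by
          rw [if_neg (ne_of_mem_erase hj)])]
        rw [prod_const, card_erase_of_mem (mem_univ i), card_univ, Fintype.card_fin]
      rw [Finset.sum_congr rfl this, sum_const, card_univ, Fintype.card_fin, smul_eq_mul]
    rw [← hcardB, ← card_union_of_disjoint]
    · calc _ ≤ (Fintype.piFinset (fun _ : Fin (2 * s) => D)).card := by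
            apply card_le_card
            apply union_subset
            · intro τ hτ
              rw [mem_biUnion] at hτ
              obtain ⟨i, _, hi⟩ := hτ
              rw [Fintype.mem_piFinset] at hi ⊢
              intro j
              have := hi j
              by_cases hj : j = i
              · rw [if_pos hj, hAdef] at this; exact this.1
              · rw [if_neg hj, hNdef] at this; exact this.1
            · intro τ hτ
              rw [mem_filter, Fintype.mem_piFinset] at hτ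
              rw [Fintype.mem_piFinset]
              intro i
              rw [hDmem]
              exact ⟨mem_range.1 (hτ.1 i), hτ.2.1 i⟩
        _ = (bet P q) ^ (2 * s) := by
            rw [Fintype.card_piFinset, Finset.prod_const, card_univ, Fintype.card_fin, hDc]
    · rw [Finset.disjoint_left]
      intro τ h1 h2
      rw [mem_biUnion] at h1
      obtain ⟨i, _, hi⟩ := h1
      rw [Fintype.mem_piFinset] at hi
      rw [mem_filter] at h2
      apply h2.2.2
      refine ⟨i, ?_, ?_⟩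
      · have := hi i
        rw [if_pos rfl, hAdef] at this
        exact this.2
      · intro j hj
        have := hi j
        rw [if_neg hj, hNdef] at this
        exact this.2
  have hcR : (2 * s : ℝ) * (A.card * (N.card : ℝ) ^ (2 * s - 1)) +
      (((Fintype.piFinset (fun _ : Fin (2 * s) => range (q ^ 2))).filter
        (fun τ => (∀ i, ¬ (q : ℤ) ∣ P.eval ((τ i : ℤ) + 1)) ∧ ¬ one F q τ)).card : ℝ)
        ≤ (bet P q : ℝ) ^ (2 * s) := by
    exact_mod_cast hcount
  have hdR : 8 * (s : ℝ) * F.natDegree ≤ q := by exact_mod_cast hdq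
  have hd0' : (0 : ℝ) ≤ F.natDegree := Nat.cast_nonneg _
  have hdq1 : (2 * F.natDegree : ℝ) / q ≤ 1 := by
    rw [div_le_one hqR]; nlinarith
  have hd0 : (0 : ℝ) ≤ 2 * F.natDegree / q := by positivity
  have hbern : (1 : ℝ) / 2 ≤ (1 - 2 * F.natDegree / q) ^ (2 * s - 1) := by
    have h1 := one_add_mul_le_pow (a := -((2 * F.natDegree : ℝ) / q)) (by linarith) (2 * s - 1)
    have h2 : ((2 * s - 1 : ℕ) : ℝ) ≤ 2 * s := by
      have : (2 * s - 1 : ℕ) ≤ 2 * s := by omega
      exact_mod_cast this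
    have h3 : (2 * (s : ℝ)) * (2 * F.natDegree / q) ≤ 1 / 2 := by
      rw [← mul_div_assoc, div_le_iff₀ hqR]; linarith
    have h4 : ((2 * s - 1 : ℕ) : ℝ) * (2 * F.natDegree / q) ≤ 1 / 2 :=
      (mul_le_mul_of_nonneg_right h2 hd0).trans h3
    have h5 : (1 : ℝ) + -((2 * F.natDegree : ℝ) / q) = 1 - 2 * F.natDegree / q := by ring
    rw [h5] at h1
    refine le_trans ?_ h1
    linarith
  have hNpow : (bet P q : ℝ) ^ (2 * s - 1) * (1 / 2) ≤ (N.card : ℝ) ^ (2 * s - 1) := by
    calc (bet P q : ℝ) ^ (2 * s - 1) * (1 / 2)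
        ≤ (bet P q : ℝ) ^ (2 * s - 1) * (1 - 2 * F.natDegree / q) ^ (2 * s - 1) :=
          mul_le_mul_of_nonneg_left hbern (by positivity)
      _ = ((bet P q : ℝ) * (1 - 2 * F.natDegree / q)) ^ (2 * s - 1) := (mul_pow _ _ _).symm
      _ ≤ (N.card : ℝ) ^ (2 * s - 1) := by
          apply pow_le_pow_left₀ _ hN
          have : (0 : ℝ) ≤ 1 - 2 * F.natDegree / q := by linarith
          positivity
  have hmain : (bet P q : ℝ) ^ (2 * s) * (s / (2 * q)) ≤
      (2 * s : ℝ) * (A.card * (N.card : ℝ) ^ (2 * s - 1)) := by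
    have h1 : (bet P q : ℝ) ^ (2 * s) = (bet P q : ℝ) ^ (2 * s - 1) * bet P q := by
      rw [← pow_succ]; congr 1; omega
    calc (bet P q : ℝ) ^ (2 * s) * (s / (2 * q))
        ≤ (bet P q : ℝ) ^ (2 * s - 1) * (q : ℝ) ^ 2 * (s / (2 * q)) := by
          rw [h1]
          gcongr
      _ = (2 * s : ℝ) * ((q / 2) * ((bet P q : ℝ) ^ (2 * s - 1) * (1 / 2))) := by
          field_simp
      _ ≤ (2 * s : ℝ) * (A.card * (N.card : ℝ) ^ (2 * s - 1)) := by
          apply mul_le_mul_of_nonneg_left _ (by positivity)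
          apply mul_le_mul hA hNpow (by positivity) (by positivity)
  have hfin : (bet P q : ℝ) ^ (2 * s) * (1 - s / (2 * q))
      = (bet P q : ℝ) ^ (2 * s) - (bet P q : ℝ) ^ (2 * s) * (s / (2 * q)) := by ring
  rw [hfin]
  linarith

end Pool.Agent.TH573.HY
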