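import Pool.Agent.TH573.HY.VP
import Pool.Agent.TH573.HY.W4
import Pool.Agent.TH573.SM.Thk

/-!
The primes of `sparse` modulo which a given polynomial has a simple root that is not a root of a
second polynomial are thick.
-/

set_option autoImplicit false

namespace Pool.Agent.TH573.HY

open Polynomial Finset Filter
open Pool.Agent.H220M Pool.Agent.H474R2.PG Pool.Agent.TH573.SM

theorem sroot_of_rho (P H D : ℤ[X]) (hP : Irreducible P) (hd : 0 < P.natDegree) (hPH : ¬ P ∣ H)
    (hPD : ¬ P ∣ D) :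
    ∃ B : ℕ, ∀ q : ℕ, q.Prime → B < q → rho P q ≠ 0 → SRoot (P * H) D q := by
  have hPP : ¬ P ∣ derivative P := by
    intro h
    have h3 : derivative P ≠ 0 := by
      intro h0
      have := derivative_eq_zero.1 h0
      omega
    have h4 := natDegree_le_of_dvd h h3
    have h5 := natDegree_derivative_lt hd.ne'
    omega
  have hN : ¬ P ∣ derivative P * H * D := by
    intro h
    rcases hP.prime.dvd_or_dvd h with h | h
    · rcases hP.prime.dvd_or_dvd h with h | h
      · exact hPP h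
      · exact hPH h
    · exact hPD h
  obtain ⟨B, hB⟩ := no_common P _ hP hd hN
  refine ⟨B, fun q hq hqB hrho => ?_⟩
  have hne : ((range q).filter (fun a : ℕ => (q : ℤ) ∣ P.eval (a : ℤ))).Nonempty := by
    rw [← Finset.card_pos]
    exact Nat.pos_of_ne_zero hrho
  obtain ⟨a, ha⟩ := hne
  have hdv : (q : ℤ) ∣ P.eval (a : ℤ) := (mem_filter.1 ha).2
  have hno := hB q hq hqB a hdv
  rw [eval_mul, eval_mul] at hno
  refine ⟨a, ?_, ?_, ?_⟩
  · rw [eval_mul]
    exact hdv.mul_right _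
  · intro h
    apply hno
    have e1 : (derivative (P * H)).eval (a : ℤ) =
        (derivative P).eval (a : ℤ) * H.eval (a : ℤ) + P.eval (a : ℤ) * (derivative H).eval (a : ℤ)
        := by
      rw [derivative_mul, eval_add, eval_mul, eval_mul]
    have h2 := dvd_sub h (hdv.mul_right ((derivative H).eval (a : ℤ)))
    rw [e1, add_sub_cancel_right] at h2
    exact h2.mul_right _
  · intro h
    apply hno
    exact h.mul_left _

open Classical in
theorem block' (P H D : ℤ[X]) (hP : Irreducible P) (hd : 0 < P.natDegree) (hPH : ¬ P ∣ H)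
    (hPD : ¬ P ∣ D) :
    ∃ C : ℝ, 0 ≤ C ∧ ∃ i0 : ℕ, ∀ i : ℕ, i0 ≤ i → ∀ m : ℕ, m ≤ i → ∀ y a : ℕ,
      tower i ^ 2 ^ i ≤ y → a ≤ tower i ^ 2 ^ m →
      ((i : ℝ) - m) * Real.log 2 - C ≤ P.natDegree *
        ∑ q ∈ (Icc 1 y).filter (fun q => q ∈ {q | q ∈ sparse ∧ SRoot (P * H) D q} ∧ a < q),
          (1 : ℝ) / q := by
  obtain ⟨C, hC, B, h⟩ := root_sum P hP hd
  obtain ⟨B', hB'⟩ := sroot_of_rho P H D hP hd hPH hPD
  refine ⟨C, hC, max (max B B') 2, fun i hi m hm y a hy ha => ?_⟩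
  have hi1 : B ≤ i := (le_max_left _ _).trans ((le_max_left _ _).trans hi)
  have hi2 : B' ≤ i := (le_max_right _ _).trans ((le_max_left _ _).trans hi)
  have hi3 : 2 ≤ i := (le_max_right _ _).trans hi
  have hT := lt_tower i
  have h1 : tower i ≤ tower i ^ 2 ^ m := Nat.le_self_pow (by positivity) _
  have h2 : tower i ^ 2 ^ m ≤ tower i ^ 2 ^ i :=
    Nat.pow_le_pow_right (by omega) (Nat.pow_le_pow_right (by norm_num) hm)
  have h3 := h (tower i ^ 2 ^ m) (tower i ^ 2 ^ i) (by omega) h2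
  rw [loglog_pow (by omega), loglog_pow (by omega)] at h3
  have h4 : ∑ q ∈ (Icc 1 (tower i ^ 2 ^ i)).filter
      (fun q => q.Prime ∧ tower i ^ 2 ^ m < q ∧ rho P q ≠ 0), (1 : ℝ) / q ≤
      ∑ q ∈ (Icc 1 y).filter (fun q => q ∈ {q | q ∈ sparse ∧ SRoot (P * H) D q} ∧ a < q),
          (1 : ℝ) / q := by
    apply Finset.sum_le_sum_of_subset_of_nonneg
    · intro q hq
      rw [mem_filter, mem_Icc] at hq ⊢
      obtain ⟨⟨h5, h6⟩, hp, h7, h8⟩ := hq
      refine ⟨⟨h5, h6.trans hy⟩, ⟨⟨hp, i, by omega, h6⟩, hB' q hp (by omega) h8⟩, by omega⟩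
    · intro q _ _
      positivity
  have h5 : (0 : ℝ) ≤ P.natDegree := Nat.cast_nonneg _
  have h6 := mul_le_mul_of_nonneg_left h4 h5
  linarith

/-- thickness -/
theorem thick_sparse' (P H D : ℤ[X]) (hP : Irreducible P) (hd : 0 < P.natDegree) (hPH : ¬ P ∣ H)
    (hPD : ¬ P ∣ D) : Thick {q | q ∈ sparse ∧ SRoot (P * H) D q} := by
  classical
  obtain ⟨C, hC, i0, h⟩ := block' P H D hP hd hPH hPD
  unfold Thick
  rw [tendsto_atTop]
  intro b
  have hd' : (0 : ℝ) < P.natDegree := by exact_mod_cast hd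
  have hl2 : (0 : ℝ) < Real.log 2 := Real.log_pos (by norm_num)
  obtain ⟨i1, hi1⟩ := exists_nat_ge ((b * P.natDegree + C) / Real.log 2 + 2)
  rw [eventually_atTop]
  refine ⟨tower (max (max i0 i1) 4 + 1), fun y hy => ?_⟩
  set j := max (max i0 i1) 4 with hj
  have hj0 : i0 ≤ j := (le_max_left _ _).trans (le_max_left _ _)
  have hj1 : i1 ≤ j := (le_max_right _ _).trans (le_max_left _ _)
  have hj2 : 4 ≤ j := le_max_right _ _
  have hy2 : 2 ≤ y := by
    have := lt_tower (j + 1)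
    omega
  obtain ⟨i, hi, hi'⟩ := exists_index y hy2
  have hji : j ≤ i := by
    by_contra hlt
    have h1 : tower (i + 2) ≤ tower (j + 1) := tower_strictMono.monotone (by omega)
    omega
  -- it suffices to find a block
  suffices hs : ((i : ℝ) - 2) * Real.log 2 - C ≤ P.natDegree *
      ∑ q ∈ (Icc 1 y).filter (fun q => q ∈ {q | q ∈ sparse ∧ SRoot (P * H) D q} ∧
        (Nat.log 2 y) ^ 2 < q), (1 : ℝ) / q by
    have h1 : (b * P.natDegree + C) / Real.log 2 ≤ (i : ℝ) - 2 := by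
      have h2 : (i1 : ℝ) ≤ i := by exact_mod_cast hj1.trans hji
      linarith
    rw [div_le_iff₀ hl2] at h1
    have h3 : (P.natDegree : ℝ) * b ≤ P.natDegree *
      ∑ q ∈ (Icc 1 y).filter (fun q => q ∈ {q | q ∈ sparse ∧ SRoot (P * H) D q} ∧
        (Nat.log 2 y) ^ 2 < q), (1 : ℝ) / q := by linarith
    have h4 := le_of_mul_le_mul_left h3 hd'
    convert h4
  have hTi : 4 ≤ tower i := by
    have := lt_tower i
    omega
  by_cases hc : tower (i + 1) ^ 2 ^ (i + 1) ≤ y
  · have hlog : Nat.log 2 y < tower (i + 1) := by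
      apply Nat.log_lt_of_lt_pow (by omega)
      rwa [← tower_succ]
    have h1 := h (i + 1) (by omega) 1 (by omega) y ((Nat.log 2 y) ^ 2) hc (by
      have : (2 : ℕ) ^ 1 = 2 := by norm_num
      rw [this]
      exact Nat.pow_le_pow_left hlog.le 2)
    push_cast at h1
    nlinarith
  · have hc' : y < tower (i + 1) ^ 2 ^ (i + 1) := not_le.1 hc
    have hlog : Nat.log 2 y < tower i * 2 ^ (i + 1) := by
      apply Nat.log_lt_of_lt_pow (by omega)
      rwa [pow_mul, ← tower_succ]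
    have h2 : tower i * 2 ^ (i + 1) ≤ tower i * tower i :=
      Nat.mul_le_mul_left _ (two_pow_le_tower (by omega))
    have h1 := h i (by omega) 2 (by omega) y ((Nat.log 2 y) ^ 2)
      ((block_le (by omega)).trans hi) (by
        calc (Nat.log 2 y) ^ 2 ≤ (tower i * tower i) ^ 2 :=
              Nat.pow_le_pow_left (hlog.le.trans h2) 2
          _ = tower i ^ 2 ^ 2 := by ring)
    push_cast at h1
    exact h1

end Pool.Agent.TH573.HY
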