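import Pool.Agent.TH573.HY.M8
import Pool.Agent.TH573.HY.Thk
import Pool.Agent.TH573.HY.Fac2
import Pool.Agent.TH573.SM.Main

/-!
Hybrid correlations: the values of several irreducible polynomials weighted by the von Mangoldt
function, and the values of a random multiplicative function at one further polynomial.
-/

set_option autoImplicit false

namespace Pool.Agent.TH573.HY

open Polynomial Finset Filter MeasureTheory
open Pool.Agent.H220M Pool.Agent.TH573.SM

theorem asW (g : ℕ →*₀ ℤ) (g' : ℕ → ℤˣ) (hg' : ∀ m : ℕ, m ≠ 0 → g m = g' m)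
    (Q : Set ℕ) (hQp : ∀ q ∈ Q, q.Prime) (Ps : Finset ℤ[X]) (hPs : Fam Ps) (F : ℤ[X])
    (hF : Thick {q | q ∈ Q ∧ SRoot F (∏ p ∈ Ps, p) q}) (v : ℕ → ℝ) (hv : ∀ n, |v n| ≤ 1) :
    ∀ᵐ ω ∂coins, ∀ f : ℕ →*₀ ℤ, IsModif g Q ω f →
      Tendsto (fun x : ℕ => (∑ n ∈ Icc 1 x, v n *
        (∏ p ∈ Ps, ArithmeticFunction.vonMangoldt (p.eval (n : ℤ)).natAbs) *
        ((f ((F.eval (n : ℤ)).natAbs) : ℤ) : ℝ)) / x) atTop (nhds 0) := by
  set w : ℕ → ℝ := fun m => if F.eval ((m : ℤ) + 1) = 0 then 0 else v (m + 1) with hw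
  have hw1 : ∀ m, |w m| ≤ 1 := by
    intro m
    simp only [hw]
    split_ifs
    · simp
    · exact hv _
  filter_upwards [weighted tC0 tM6b Ps hPs _ rfl F g' Q hQp w hw1 hF] with ω hω f hf
  obtain ⟨f', hf', hfm⟩ := isModif_exists g g' hg' Q ω
  have hff : f = f' := isModif_unique g Q ω f f' hf hf'
  subst hff
  refine hω.congr fun x => ?_
  rw [sum_eq F f (modif g' Q ω) hfm (fun m => w m * wt Ps m)
    (fun m h => by simp only [hw]; rw [if_pos h, zero_mul]) x]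
  congr 1
  apply Finset.sum_congr rfl
  intro n hn
  have hn1 : 1 ≤ n := (Finset.mem_Icc.mp hn).1
  have e1 : n - 1 + 1 = n := by omega
  have e2 : ((n - 1 : ℕ) : ℤ) + 1 = (n : ℤ) := by omega
  simp only [hw, wt]
  rw [e1, e2]
  by_cases h0 : F.eval (n : ℤ) = 0
  · simp [h0]
  · simp only [h0, if_false]

theorem main (g : ℕ →*₀ ℤ) (hg : ∀ p : ℕ, p.Prime → g p = 1 ∨ g p = -1)
    (v : ℕ → ℕ → ℝ) (hv : ∀ s n, |v s n| ≤ 1) :
    ∀ᵐ ω ∂coins, ∃! f : ℕ →*₀ ℤ, IsModif g sparse ω f ∧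
      ∀ Ps : Finset ℤ[X], Fam Ps → ∀ F : ℤ[X],
      (¬ ∃ (c : ℤ) (S : Finset ℤ[X]) (G : ℤ[X]), S ⊆ Ps ∧ F = C c * (∏ p ∈ S, p) * G ^ 2) →
      ∀ s a b : ℕ, Tendsto (fun x : ℕ => (∑ n ∈ (Icc 1 x).filter (fun n => n ≡ a [MOD b]), v s n *
          (∏ p ∈ Ps, ArithmeticFunction.vonMangoldt (p.eval (n : ℤ)).natAbs) *
          ((f (F.eval (n : ℤ)).natAbs : ℤ) : ℝ)) / x) atTop (nhds 0) := by
  classical
  have hQp : ∀ q ∈ sparse, q.Prime := fun q hq => hq.1
  obtain ⟨g', hg'⟩ := exists_unit g hg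
  have := countable_poly
  have hall : ∀ᵐ ω ∂coins, ∀ (Ps : Finset ℤ[X]), Fam Ps → ∀ (F : ℤ[X]),
      (¬ ∃ (c : ℤ) (S : Finset ℤ[X]) (G : ℤ[X]), S ⊆ Ps ∧ F = C c * (∏ p ∈ S, p) * G ^ 2) →
      ∀ s a b : ℕ, ∀ f : ℕ →*₀ ℤ, IsModif g sparse ω f →
        Tendsto (fun x : ℕ => (∑ n ∈ (Icc 1 x).filter (fun n => n ≡ a [MOD b]), v s n *
          (∏ p ∈ Ps, ArithmeticFunction.vonMangoldt (p.eval (n : ℤ)).natAbs) *
          ((f (F.eval (n : ℤ)).natAbs : ℤ) : ℝ)) / x) atTop (nhds 0) := by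
    rw [ae_all_iff]; intro Ps
    by_cases hPs : Fam Ps
    · have h2 : ∀ᵐ ω ∂coins, ∀ (F : ℤ[X]),
          (¬ ∃ (c : ℤ) (S : Finset ℤ[X]) (G : ℤ[X]), S ⊆ Ps ∧ F = C c * (∏ p ∈ S, p) * G ^ 2) →
          ∀ s a b : ℕ, ∀ f : ℕ →*₀ ℤ, IsModif g sparse ω f →
            Tendsto (fun x : ℕ => (∑ n ∈ (Icc 1 x).filter (fun n => n ≡ a [MOD b]), v s n *
              (∏ p ∈ Ps, ArithmeticFunction.vonMangoldt (p.eval (n : ℤ)).natAbs) *
              ((f (F.eval (n : ℤ)).natAbs : ℤ) : ℝ)) / x) atTop (nhds 0) := by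
        rw [ae_all_iff]; intro F
        by_cases hF : ∃ (c : ℤ) (S : Finset ℤ[X]) (G : ℤ[X]), S ⊆ Ps ∧
            F = C c * (∏ p ∈ S, p) * G ^ 2
        · filter_upwards with ω h
          exact absurd hF h
        · obtain ⟨P, H, k, hP, hd, hPH, hPD, hFe⟩ := factor2 Ps hPs F hF
          have h1 : ∀ᵐ ω ∂coins, ∀ s a b : ℕ, ∀ f : ℕ →*₀ ℤ, IsModif g sparse ω f →
              Tendsto (fun x : ℕ => (∑ n ∈ (Icc 1 x).filter (fun n => n ≡ a [MOD b]), v s n *
                (∏ p ∈ Ps, ArithmeticFunction.vonMangoldt (p.eval (n : ℤ)).natAbs) *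
                ((f (F.eval (n : ℤ)).natAbs : ℤ) : ℝ)) / x) atTop (nhds 0) := by
            rw [ae_all_iff]; intro s
            rw [ae_all_iff]; intro a
            rw [ae_all_iff]; intro b
            filter_upwards [asW g g' hg' sparse hQp Ps hPs (P * H)
              (thick_sparse' P H _ hP hd hPH hPD)
              (fun n => if n ≡ a [MOD b] then v s n else 0) (fun n => by
                split_ifs
                · exact hv s n
                · simp)] with ω hω f hf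
            refine (hω f hf).congr fun x => ?_
            obtain ⟨f', hf', hfm⟩ := isModif_exists g g' hg' sparse ω
            have hff : f = f' := isModif_unique g sparse ω f f' hf hf'
            subst hff
            congr 1
            rw [Finset.sum_filter]
            apply Finset.sum_congr rfl
            intro n _
            beta_reduce
            rw [hFe, eval_reduce f _ hfm]
            split_ifs
            · rfl
            · rw [zero_mul, zero_mul]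
          filter_upwards [h1] with ω hω _
          exact hω
      filter_upwards [h2] with ω hω _
      exact hω
    · filter_upwards with ω h
      exact absurd h hPs
  filter_upwards [hall] with ω hω
  obtain ⟨f, hf, hfm⟩ := isModif_exists g g' hg' sparse ω
  exact ⟨f, ⟨hf, fun Ps hPs F hF s a b => hω Ps hPs F hF s a b f hf⟩,
    fun f' hf' => isModif_unique g sparse ω f' f hf'.1 hf⟩

/-- distinct shifts: the linear polynomials `X + h` -/
theorem fam_shifts (A : Finset ℕ) : Fam (A.map ⟨fun h : ℕ => (X + C (h : ℤ) : ℤ[X]), fun a b h => by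
    have h1 : (C (a : ℤ) : ℤ[X]) = C (b : ℤ) := add_left_cancel h
    exact_mod_cast C_injective h1⟩) := by
  have hirr : ∀ h : ℕ, Prime (X + C (h : ℤ) : ℤ[X]) := by
    intro h
    have := prime_X_sub_C (-(h : ℤ))
    rwa [C_neg, sub_neg_eq_add] at this
  constructor
  · intro p hp
    rw [Finset.mem_map] at hp
    obtain ⟨h, _, rfl⟩ := hp
    refine ⟨(hirr h).irreducible, ?_⟩
    show 0 < (X + C (h : ℤ) : ℤ[X]).natDegree
    rw [natDegree_X_add_C]
    norm_num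
  · intro p hp p' hp' hne has
    rw [Finset.mem_map] at hp hp'
    obtain ⟨h, _, rfl⟩ := hp
    obtain ⟨h', _, rfl⟩ := hp'
    apply hne
    exact eq_of_monic_of_associated (monic_X_add_C _) (monic_X_add_C _) has

theorem shifts_not (A T : Finset ℕ) (hT : T.Nonempty) (hAT : Disjoint A T) :
    ¬ ∃ (c : ℤ) (S : Finset ℤ[X]) (G : ℤ[X]),
      S ⊆ A.map ⟨fun h : ℕ => (X + C (h : ℤ) : ℤ[X]), fun a b h => by
        have h1 : (C (a : ℤ) : ℤ[X]) = C (b : ℤ) := add_left_cancel h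
        exact_mod_cast C_injective h1⟩ ∧
      (∏ t ∈ T, (X + C (t : ℤ) : ℤ[X])) = C c * (∏ p ∈ S, p) * G ^ 2 := by
  rintro ⟨c, S, G, hS, hF⟩
  obtain ⟨t, ht⟩ := hT
  have hpr : Prime (X + C (t : ℤ) : ℤ[X]) := by
    have := prime_X_sub_C (-(t : ℤ))
    rwa [C_neg, sub_neg_eq_add] at this
  have hdv : ∀ D : ℤ[X], (X + C (t : ℤ)) ∣ D → D.eval (-(t : ℤ)) = 0 := by
    rintro D ⟨E, rfl⟩
    rw [eval_mul, eval_add, eval_X, eval_C]
    ring
  rw [← Finset.mul_prod_erase T _ ht] at hF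
  have hne : ¬ (X + C (t : ℤ) : ℤ[X]) ∣ ∏ x ∈ T.erase t, (X + C (x : ℤ) : ℤ[X]) := by
    intro h
    have h1 := hdv _ h
    rw [eval_prod, Finset.prod_eq_zero_iff] at h1
    obtain ⟨x, hx, h2⟩ := h1
    rw [eval_add, eval_X, eval_C] at h2
    have h3 := (Finset.mem_erase.1 hx).1
    apply h3
    omega
  have hc : c ≠ 0 := by
    rintro rfl
    rw [C_0, zero_mul, zero_mul] at hF
    rcases mul_eq_zero.1 hF with h | h
    · exact hpr.ne_zero h
    · rw [h] at hne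
      exact hne (dvd_zero _)
  have h1 : (X + C (t : ℤ) : ℤ[X]) ∣ C c * (∏ p ∈ S, p) * G ^ 2 := by
    rw [← hF]
    exact dvd_mul_right _ _
  rcases hpr.dvd_or_dvd h1 with h1 | h1
  · rcases hpr.dvd_or_dvd h1 with h1 | h1
    · have := hdv _ h1
      rw [eval_C] at this
      exact hc this
    · have h2 := hdv _ h1
      rw [eval_prod, Finset.prod_eq_zero_iff] at h2
      obtain ⟨p, hp, h3⟩ := h2
      have h4 := hS hp
      rw [Finset.mem_map] at h4
      obtain ⟨h, hh, rfl⟩ := h4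
      change (X + C (h : ℤ) : ℤ[X]).eval (-(t : ℤ)) = 0 at h3
      rw [eval_add, eval_X, eval_C] at h3
      have h5 : h = t := by omega
      subst h5
      exact Finset.disjoint_left.1 hAT hh ht
  · have h2 := hpr.dvd_of_dvd_pow h1
    obtain ⟨E, hE⟩ := h2
    apply hne
    rw [hE] at hF
    have h3 : (X + C (t : ℤ) : ℤ[X]) * ∏ x ∈ T.erase t, (X + C (x : ℤ) : ℤ[X]) =
        (X + C (t : ℤ)) * ((X + C (t : ℤ)) * (C c * (∏ p ∈ S, p) * E ^ 2)) := by
      rw [hF]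
      ring
    have h4 := mul_left_cancel₀ hpr.ne_zero h3
    rw [h4]
    exact dvd_mul_right _ _

theorem shifts_eval (f : ℕ →*₀ ℤ) (T : Finset ℕ) (n : ℕ) :
    f ((∏ t ∈ T, (X + C (t : ℤ) : ℤ[X])).eval (n : ℤ)).natAbs = ∏ t ∈ T, f (n + t) := by
  have e : ((∏ t ∈ T, (X + C (t : ℤ) : ℤ[X])).eval (n : ℤ)).natAbs = ∏ t ∈ T, (n + t) := by
    rw [eval_prod]
    have e1 : ∏ t ∈ T, (X + C (t : ℤ) : ℤ[X]).eval (n : ℤ) = ((∏ t ∈ T, (n + t) : ℕ) : ℤ) := by
      push_cast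
      exact Finset.prod_congr rfl fun t _ => by rw [eval_add, eval_X, eval_C]
    rw [e1, Int.natAbs_natCast]
  rw [e, map_prod]

theorem shifts_weight (A : Finset ℕ) (n : ℕ) :
    ∏ p ∈ A.map ⟨fun h : ℕ => (X + C (h : ℤ) : ℤ[X]), fun a b h => by
      have h1 : (C (a : ℤ) : ℤ[X]) = C (b : ℤ) := add_left_cancel h
      exact_mod_cast C_injective h1⟩,
      ArithmeticFunction.vonMangoldt (p.eval (n : ℤ)).natAbs =
    ∏ h ∈ A, ArithmeticFunction.vonMangoldt (n + h) := by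
  rw [Finset.prod_map]
  apply Finset.prod_congr rfl
  intro h _
  congr 1
  show ((X + C (h : ℤ) : ℤ[X]).eval (n : ℤ)).natAbs = n + h
  rw [eval_add, eval_X, eval_C]
  omega

end Pool.Agent.TH573.HY
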