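import Pool.Agent.TH573.HY.W1
import Pool.Agent.TH573.HY.W4
import Pool.Agent.H220M.M2

/-!
Exponential bound for the number of bad subsets, for weights supported on a set `I` which is well
distributed in the residue classes.
-/

set_option autoImplicit false

namespace Pool.Agent.TH573.HY

open Finset Polynomial
open Pool.Agent.H220M

theorem dvd_congr (P : ℤ[X]) (q : ℕ) (a b : ℕ) (h : a ≡ b [MOD q]) :
    (q : ℤ) ∣ P.eval ((a : ℤ) + 1) ↔ (q : ℤ) ∣ P.eval ((b : ℤ) + 1) := by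
  have h1 : (q : ℤ) ∣ ((a : ℤ) + 1) - ((b : ℤ) + 1) := by
    have h2 := Nat.modEq_iff_dvd.mp h.symm
    have e : ((a : ℤ) + 1) - ((b : ℤ) + 1) = (a : ℤ) - b := by ring
    rw [e]
    exact h2
  exact dvd_iff_dvd_of_dvd_sub (h1.trans (Polynomial.sub_dvd_eval_sub _ _ P))

open Classical in
theorem tuples (F P : ℤ[X]) (s : ℕ) (hs : 1 ≤ s) (Q : Finset ℕ)
    (hQ : ∀ q ∈ Q, q.Prime ∧ SRoot F P q ∧ 8 * s * F.natDegree ≤ q ∧ q ^ 2 ≤ 2 * bet P q)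
    (I : Finset ℕ) (hI : ∀ m ∈ I, ∀ q ∈ Q, ¬ (q : ℤ) ∣ P.eval ((m : ℤ) + 1)) (L : ℕ)
    (hL : ∀ ρ < ∏ q ∈ Q, q ^ 2, (∀ q ∈ Q, ¬ (q : ℤ) ∣ P.eval ((ρ : ℤ) + 1)) →
      (I.filter (fun m => m % (∏ q ∈ Q, q ^ 2) = ρ)).card ≤ L) :
    (((Fintype.piFinset (fun _ : Fin (2 * s) => I)).filter
      (fun τ => ∀ q ∈ Q, Even (∑ i, (F.eval ((τ i : ℤ) + 1)).natAbs.factorization q))).card : ℝ) ≤
      ((L : ℝ) * ∏ q ∈ Q, (bet P q : ℝ)) ^ (2 * s) *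
        Real.exp (-((s : ℝ) / 2 * ∑ q ∈ Q, (1 : ℝ) / q)) := by
  obtain ⟨M, hM⟩ : ∃ M, M = ∏ q ∈ Q, q ^ 2 := ⟨_, rfl⟩
  rw [← hM] at hL
  have hM0 : 0 < M := by
    rw [hM]
    exact Finset.prod_pos fun q hq => pow_pos (hQ q hq).1.pos 2
  have hqM : ∀ q ∈ Q, q ∣ M := fun q hq => by
    rw [hM]
    exact (dvd_pow_self q two_ne_zero).trans (Finset.dvd_prod_of_mem (fun q => q ^ 2) hq)
  obtain ⟨loc, hloc⟩ : ∃ loc : ℕ → (Fin (2 * s) → ℕ) → Prop, loc = fun (q : ℕ) τ =>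
    (∀ i, ¬ (q : ℤ) ∣ P.eval ((τ i : ℤ) + 1)) ∧ ¬ one F q τ := ⟨_, rfl⟩
  have hlocp : ∀ q (τ τ' : Fin (2 * s) → ℕ), (∀ i, τ i ≡ τ' i [MOD q ^ 2]) →
      (loc q τ ↔ loc q τ') := by
    intro q τ τ' h
    rw [hloc]
    have h1 : ∀ i, ((q : ℤ) ∣ P.eval ((τ i : ℤ) + 1) ↔ (q : ℤ) ∣ P.eval ((τ' i : ℤ) + 1)) :=
      fun i => dvd_congr P q _ _ ((h i).of_dvd (dvd_pow_self q two_ne_zero))
    simp only [h1, TM5.one_congr F q τ τ' h]
  have hsub : ((Fintype.piFinset (fun _ : Fin (2 * s) => I)).filter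
      (fun τ => ∀ q ∈ Q, Even (∑ i, (F.eval ((τ i : ℤ) + 1)).natAbs.factorization q))) ⊆
      ((Fintype.piFinset (fun _ : Fin (2 * s) => I)).filter (fun τ => ∀ q ∈ Q, loc q τ)) := by
    intro τ hτ
    rw [Finset.mem_filter] at hτ ⊢
    refine ⟨hτ.1, fun q hq => ?_⟩
    rw [hloc]
    exact ⟨fun i => hI _ (Fintype.mem_piFinset.1 hτ.1 i) q hq,
      fun h => TM5.odd_of_one F q (hQ q hq).1 τ h (hτ.2 q hq)⟩
  have h3 := to_residues (2 * s) M L hM0 I (by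
    intro ρ hρ
    by_cases hc : ∀ q ∈ Q, ¬ (q : ℤ) ∣ P.eval ((ρ : ℤ) + 1)
    · exact hL ρ hρ hc
    · have : I.filter (fun m => m % M = ρ) = ∅ := by
        rw [Finset.filter_eq_empty_iff]
        intro m hm hmρ
        push Not at hc
        obtain ⟨q, hq, hqd⟩ := hc
        apply hI m hm q hq
        rw [dvd_congr P q m ρ]
        · exact hqd
        · rw [← hmρ]
          exact ((Nat.mod_modEq m M).of_dvd (hqM q hq)).symm
      rw [this, Finset.card_empty]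
      exact Nat.zero_le _) (fun τ => ∀ q ∈ Q, loc q τ) (by
    intro τ
    refine forall_congr' fun q => forall_congr' fun hq => hlocp q _ _ fun i => ?_
    refine ((Nat.mod_modEq (τ i) M).of_dvd ?_).symm
    rw [hM]
    exact Finset.dvd_prod_of_mem (fun q => q ^ 2) hq)
  have h2 := tM2 (2 * s) Q (fun q hq => (hQ q hq).1) loc (fun q _ τ τ' h => hlocp q τ τ' h)
  rw [← hM] at h2
  have h2' : ((Fintype.piFinset (fun _ : Fin (2 * s) => range M)).filter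
      (fun τ => ∀ q ∈ Q, loc q τ)).card =
      ∏ q ∈ Q, ((Fintype.piFinset (fun _ : Fin (2 * s) => range (q ^ 2))).filter (loc q)).card := by
    convert h2
  have h3' := h3.trans (Nat.mul_le_mul_left (L ^ (2 * s)) (le_of_eq (by rw [← h2']; congr) :
    _ ≤ ∏ q ∈ Q, ((Fintype.piFinset (fun _ : Fin (2 * s) => range (q ^ 2))).filter (loc q)).card))
  have h4 : ∀ q ∈ Q, ((((Fintype.piFinset (fun _ : Fin (2 * s) => range (q ^ 2))).filter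
        (loc q)).card : ℕ) : ℝ) ≤
      (bet P q : ℝ) ^ (2 * s) * Real.exp (-((s : ℝ) / 2 * (1 / q))) := by
    intro q hq
    have h5 := local_count F P q s (hQ q hq).1 (hQ q hq).2.1 hs (hQ q hq).2.2.1 (hQ q hq).2.2.2
    have h6 : (loc q) = (fun τ : Fin (2 * s) → ℕ =>
      (∀ i, ¬ (q : ℤ) ∣ P.eval ((τ i : ℤ) + 1)) ∧ ¬ one F q τ) := by rw [hloc]
    have h7 : ((((Fintype.piFinset (fun _ : Fin (2 * s) => range (q ^ 2))).filter
        (loc q)).card : ℕ) : ℝ) ≤ (bet P q : ℝ) ^ (2 * s) * (1 - s / (2 * q)) := by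
      simp only [h6]
      convert h5
    refine h7.trans ?_
    apply mul_le_mul_of_nonneg_left _ (by positivity)
    have := Real.add_one_le_exp (-((s : ℝ) / 2 * (1 / q)))
    have e : (s : ℝ) / (2 * q) = (s : ℝ) / 2 * (1 / q) := by
      rw [div_mul_div_comm, mul_one]
    rw [e]
    linarith
  have h5 : (((∏ q ∈ Q, ((Fintype.piFinset (fun _ : Fin (2 * s) => range (q ^ 2))).filter
        (loc q)).card : ℕ) : ℕ) : ℝ) ≤
      (∏ q ∈ Q, (bet P q : ℝ)) ^ (2 * s) * Real.exp (-((s : ℝ) / 2 * ∑ q ∈ Q, (1 : ℝ) / q)) := by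
    rw [Nat.cast_prod]
    refine (Finset.prod_le_prod (fun q _ => Nat.cast_nonneg _) h4).trans (le_of_eq ?_)
    rw [Finset.prod_mul_distrib, Finset.prod_pow, ← Real.exp_sum, Finset.sum_neg_distrib,
      ← Finset.mul_sum]
  have h6 : (((Fintype.piFinset (fun _ : Fin (2 * s) => I)).filter
      (fun τ => ∀ q ∈ Q, Even (∑ i, (F.eval ((τ i : ℤ) + 1)).natAbs.factorization q))).card : ℝ) ≤
      (L : ℝ) ^ (2 * s) * (((∏ q ∈ Q, ((Fintype.piFinset (fun _ : Fin (2 * s) =>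
        range (q ^ 2))).filter (loc q)).card : ℕ) : ℕ) : ℝ) := by
    refine le_trans (Nat.cast_le.2 (Finset.card_le_card hsub)) ?_
    rw [← Nat.cast_pow, ← Nat.cast_mul, Nat.cast_le]
    refine le_trans (le_of_eq ?_) h3'
    congr
  refine h6.trans ((mul_le_mul_of_nonneg_left h5 (by positivity)).trans (le_of_eq ?_))
  rw [mul_pow]
  ring

open Classical in
theorem bad_count (F P : ℤ[X]) (s : ℕ) (hs : 1 ≤ s) (Q : Finset ℕ)
    (hQ : ∀ q ∈ Q, q.Prime ∧ SRoot F P q ∧ 8 * s * F.natDegree ≤ q ∧ q ^ 2 ≤ 2 * bet P q)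
    (I : Finset ℕ) (hI : ∀ m ∈ I, ∀ q ∈ Q, ¬ (q : ℤ) ∣ P.eval ((m : ℤ) + 1)) (L : ℕ)
    (hL : ∀ ρ < ∏ q ∈ Q, q ^ 2, (∀ q ∈ Q, ¬ (q : ℤ) ∣ P.eval ((ρ : ℤ) + 1)) →
      (I.filter (fun m => m % (∏ q ∈ Q, q ^ 2) = ρ)).card ≤ L)
    (G : ℕ → ℝ) (K θ R : ℝ) (hK : 0 ≤ K) (hG : ∀ m ∈ I, |G m| ≤ K) (hθ : 0 < θ) (hR : 0 < R)
    (hKL : K * ((L : ℝ) * ∏ q ∈ Q, (bet P q : ℝ)) ≤ R * θ)
    (hS : 4 * Real.log R + 2 ≤ ∑ q ∈ Q, (1 : ℝ) / q) :
    ((Q.powerset.filter (fun S => θ <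
        |∑ m ∈ I, G m * (((flipU S ((F.eval ((m : ℤ) + 1)).natAbs) : ℤˣ) : ℤ) : ℝ)|)).card : ℝ)
        ≤ Real.exp (-(s : ℝ)) * 2 ^ Q.card := by
  have h1 := moment Q I (2 * s) G K hG
    (fun q m => (F.eval ((m : ℤ) + 1)).natAbs.factorization q)
  simp only [← TM5.flip_cast] at h1
  obtain ⟨A, hA⟩ : ∃ A, A = Q.powerset.filter (fun S => θ <
        |∑ m ∈ I, G m *
          (((flipU S ((F.eval ((m : ℤ) + 1)).natAbs) : ℤˣ) : ℤ) : ℝ)|) := ⟨_, rfl⟩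
  rw [← hA]
  have h2 : (A.card : ℝ) * θ ^ (2 * s) ≤ ∑ S ∈ Q.powerset, (∑ m ∈ I, G m *
      (((flipU S ((F.eval ((m : ℤ) + 1)).natAbs) : ℤˣ) : ℤ) : ℝ)) ^ (2 * s) := by
    calc (A.card : ℝ) * θ ^ (2 * s) = ∑ S ∈ A, θ ^ (2 * s) := by
          rw [Finset.sum_const, nsmul_eq_mul]
      _ ≤ ∑ S ∈ A, (∑ m ∈ I, G m *
      (((flipU S ((F.eval ((m : ℤ) + 1)).natAbs) : ℤˣ) : ℤ) : ℝ)) ^ (2 * s) := by
          refine Finset.sum_le_sum fun S hS => ?_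
          rw [hA, Finset.mem_filter] at hS
          rw [← (even_two_mul s).pow_abs (∑ m ∈ I, G m *
      (((flipU S ((F.eval ((m : ℤ) + 1)).natAbs) : ℤˣ) : ℤ) : ℝ))]
          exact pow_le_pow_left₀ hθ.le hS.2.le _
      _ ≤ _ := by
          refine Finset.sum_le_sum_of_subset_of_nonneg ?_ fun S _ _ => (even_two_mul s).pow_nonneg _
          rw [hA]
          exact Finset.filter_subset _ _
  have h3 := h2.trans h1
  have h4 := tuples F P s hs Q hQ I hI L hL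
  obtain ⟨Y, hY⟩ : ∃ Y : ℝ, Y = (L : ℝ) * ∏ q ∈ Q, (bet P q : ℝ) := ⟨_, rfl⟩
  rw [← hY] at h4 hKL
  have hY0 : 0 ≤ Y := by rw [hY]; positivity
  have h5 : Real.exp (-((s : ℝ) / 2 * ∑ q ∈ Q, (1 : ℝ) / q)) ≤
      (R⁻¹) ^ (2 * s) * Real.exp (-(s : ℝ)) := by
    have e1 : (R⁻¹) ^ (2 * s) = Real.exp (((2 * s : ℕ) : ℝ) * Real.log (R⁻¹)) := by
      rw [Real.exp_nat_mul, Real.exp_log (by positivity)]
    rw [e1, ← Real.exp_add]
    apply Real.exp_le_exp.mpr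
    rw [Real.log_inv]
    push_cast
    have hs0 : (0 : ℝ) ≤ (s : ℝ) / 2 := by positivity
    have := mul_le_mul_of_nonneg_left hS hs0
    nlinarith [this]
  have h6 : (A.card : ℝ) * θ ^ (2 * s) ≤ (Real.exp (-(s : ℝ)) * 2 ^ Q.card) * θ ^ (2 * s) := by
    calc (A.card : ℝ) * θ ^ (2 * s) ≤ _ := h3
      _ ≤ 2 ^ Q.card * (K ^ (2 * s) * (Y ^ (2 * s) *
          Real.exp (-((s : ℝ) / 2 * ∑ q ∈ Q, (1 : ℝ) / q)))) := by
          gcongr
      _ ≤ 2 ^ Q.card * (K ^ (2 * s) * (Y ^ (2 * s) *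
          ((R⁻¹) ^ (2 * s) * Real.exp (-(s : ℝ))))) := by gcongr
      _ = 2 ^ Q.card * ((K * Y * R⁻¹) ^ (2 * s) * Real.exp (-(s : ℝ))) := by
          rw [mul_pow, mul_pow]; ring
      _ ≤ 2 ^ Q.card * (θ ^ (2 * s) * Real.exp (-(s : ℝ))) := by
          have h7 : K * Y * R⁻¹ ≤ θ := by
            rw [← div_eq_mul_inv, div_le_iff₀ hR]
            linarith
          have h8 : 0 ≤ K * Y * R⁻¹ := by positivity
          gcongr
      _ = (Real.exp (-(s : ℝ)) * 2 ^ Q.card) * θ ^ (2 * s) := by ring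
  exact le_of_mul_le_mul_right h6 (by positivity)

end Pool.Agent.TH573.HY
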