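import Pool.Agent.TH573.HY.VP
import Pool.Agent.TH573.HY.W5

/-!
Choice of the sieving range at the scale `2 ^ j`, and the count in residue classes.
-/

set_option autoImplicit false

namespace Pool.Agent.TH573.HY

open Finset Polynomial Filter
open Pool.Agent.H410R2.ED Pool.Agent.H474R2.PG

/-- the parameter of the sieving range -/
def JJ (c κ j : ℕ) : ℕ := Nat.log 2 (j / (8 * (c * κ)))

/-- the value of `P` at `m + 1` has no prime factor in the sieving range -/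
def Wp (P : ℤ[X]) (c κ j m : ℕ) : Prop := ∀ l ∈ Pr κ (JJ c κ j), ¬ (l : ℤ) ∣ P.eval ((m : ℤ) + 1)

instance (P : ℤ[X]) (c κ j : ℕ) : DecidablePred (Wp P c κ j) := fun m => by
  unfold Wp; infer_instance

theorem pow_JJ_le {c κ j : ℕ} (hcκ : 1 ≤ c * κ) (hj : 8 * (c * κ) ≤ j) :
    2 ^ JJ c κ j * (c * κ) ≤ j / 8 := by
  unfold JJ
  have h1 : 2 ^ Nat.log 2 (j / (8 * (c * κ))) ≤ j / (8 * (c * κ)) := by
    apply Nat.pow_log_le_self
    have : 0 < j / (8 * (c * κ)) := Nat.div_pos hj (by omega)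
    omega
  rw [Nat.le_div_iff_mul_le (by norm_num)]
  calc 2 ^ Nat.log 2 (j / (8 * (c * κ))) * (c * κ) * 8
      ≤ j / (8 * (c * κ)) * (c * κ) * 8 := by gcongr
    _ = j / (8 * (c * κ)) * (8 * (c * κ)) := by ring
    _ ≤ j := Nat.div_mul_le_self _ _

theorem sifting_le {c κ j : ℕ} (hcκ : 1 ≤ c * κ) (hj : 8 * (c * κ) ≤ j) :
    ((2 : ℝ) ^ 2 ^ JJ c κ j) ^ (c * κ) ≤ 2 ^ (j / 8) := by
  rw [← pow_mul]
  exact pow_le_pow_right₀ (by norm_num) (pow_JJ_le hcκ hj)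

theorem pow_pow_JJ_le {c κ j : ℕ} (hcκ : 1 ≤ c * κ) (hj : 8 * (c * κ) ≤ j) :
    2 ^ 2 ^ JJ c κ j ≤ 2 ^ (j / 8) := by
  apply Nat.pow_le_pow_right (by norm_num)
  exact (Nat.le_mul_of_pos_right _ (by omega)).trans (pow_JJ_le hcκ hj)

theorem le_pow_JJ {c κ j : ℕ} (hcκ : 1 ≤ c * κ) :
    (j : ℝ) ≤ 16 * (c * κ) * 2 ^ JJ c κ j := by
  unfold JJ
  have h1 : j / (8 * (c * κ)) < 2 ^ (Nat.log 2 (j / (8 * (c * κ))) + 1) :=
    Nat.lt_pow_succ_log_self (by norm_num) _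
  have h2 : j < 2 ^ (Nat.log 2 (j / (8 * (c * κ))) + 1) * (8 * (c * κ)) :=
    (Nat.div_lt_iff_lt_mul (by omega)).1 h1
  rw [pow_succ] at h2
  have h3 : (j : ℝ) ≤ (2 ^ Nat.log 2 (j / (8 * (c * κ))) * 2 * (8 * (c * κ)) : ℕ) := by
    exact_mod_cast h2.le
  refine h3.trans (le_of_eq ?_)
  push_cast
  ring

/-- the sieve product at the scale `2 ^ j` -/
theorem V_scale (Ps : Finset ℤ[X]) (hPs : Fam Ps) (c κ : ℕ) (hcκ : 1 ≤ c * κ)
    (hρ : ∀ l : ℕ, l.Prime → 2 * κ < l → rho (∏ p ∈ Ps, p) l ≤ κ) :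
    ∃ C : ℝ, 0 < C ∧ ∀ j : ℕ, 1 ≤ j →
      ∏ l ∈ Pr κ (JJ c κ j), (1 - (rho (∏ p ∈ Ps, p) l : ℝ) / l) ≤ C / (j : ℝ) ^ Ps.card := by
  obtain ⟨C, hC, h⟩ := V_bound Ps hPs κ hρ
  have hcκ' : (0 : ℝ) < (c : ℝ) * κ := by exact_mod_cast (by omega : 0 < c * κ)
  refine ⟨C * (16 * (c * κ)) ^ Ps.card, by positivity, fun j hj => ?_⟩
  refine (h (JJ c κ j)).trans ?_
  have hj0 : (0 : ℝ) < j := by exact_mod_cast hj
  rw [div_le_div_iff₀ (by positivity) (by positivity), mul_assoc, ← mul_pow]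
  apply mul_le_mul_of_nonneg_left _ hC.le
  exact pow_le_pow_left₀ hj0.le (le_pow_JJ hcκ) _

/-- `j ^ k ≤ 2 ^ (j / 2)` for large `j` -/
theorem ev_pow (k : ℕ) (ε : ℝ) (hε : 0 < ε) : ∀ᶠ j : ℕ in atTop,
    (j : ℝ) ^ k ≤ ε * 2 ^ (j / 2) := by
  have h1 : Tendsto (fun n : ℕ => (n : ℝ) ^ k / 2 ^ n) atTop (nhds 0) :=
    tendsto_pow_const_div_const_pow_of_one_lt k (by norm_num)
  have h2 := h1.comp (Nat.tendsto_div_const_atTop (by norm_num : (2 : ℕ) ≠ 0))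
  have h3 := h2.eventually (gt_mem_nhds (show (0 : ℝ) < ε / 3 ^ k by positivity))
  filter_upwards [h3, eventually_ge_atTop 2] with j hj hj2
  simp only [Function.comp] at hj
  rw [div_lt_iff₀ (by positivity)] at hj
  have h4 : (j : ℝ) ≤ 3 * (j / 2 : ℕ) := by
    have : j ≤ 3 * (j / 2) := by omega
    exact_mod_cast this
  calc (j : ℝ) ^ k ≤ (3 * (j / 2 : ℕ)) ^ k := pow_le_pow_left₀ (by positivity) h4 _
    _ = 3 ^ k * ((j / 2 : ℕ) : ℝ) ^ k := mul_pow _ _ _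
    _ ≤ 3 ^ k * (ε / 3 ^ k * 2 ^ (j / 2)) := mul_le_mul_of_nonneg_left hj.le (by positivity)
    _ = ε * 2 ^ (j / 2) := by field_simp

/-- number of residues coprime to `q` -/
theorem bet_eq (P : ℤ[X]) (q : ℕ) (hq : q.Prime) :
    (bet P q : ℝ) = (q : ℝ) ^ 2 * (1 - (rho P q : ℝ) / q) := by
  classical
  have h1 : ((range (q * q)).filter (fun r : ℕ => (q : ℤ) ∣ P.eval ((r : ℤ) + 1))).card =
      q * rho P q := by
    have h2 : ((range q).filter (fun r : ℕ => (q : ℤ) ∣ P.eval ((r : ℤ) + 1))).card =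
        rho P q := by
      have h3 := rho_affine P q 1 0 hq (by
        intro h
        exact hq.one_lt.ne' (Nat.dvd_one.1 h))
      simpa using h3
    rw [← h2]
    have h4 : ((range q) ×ˢ ((range q).filter
        (fun r : ℕ => (q : ℤ) ∣ P.eval ((r : ℤ) + 1)))).card =
        q * ((range q).filter (fun r : ℕ => (q : ℤ) ∣ P.eval ((r : ℤ) + 1))).card := by
      rw [card_product, card_range]
    rw [← h4]
    refine Finset.card_nbij' (fun r => (r / q, r % q)) (fun x => q * x.1 + x.2) ?_ ?_ ?_ ?_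
    · intro r hr
      rw [mem_coe, mem_filter, mem_range] at hr
      rw [mem_coe, mem_product, mem_filter, mem_range, mem_range]
      refine ⟨Nat.div_lt_of_lt_mul hr.1, Nat.mod_lt _ hq.pos, ?_⟩
      exact (dvd_congr P q _ _ (Nat.mod_modEq r q)).2 hr.2
    · intro x hx
      rw [mem_coe, mem_product, mem_filter, mem_range, mem_range] at hx
      rw [mem_coe, mem_filter, mem_range]
      refine ⟨?_, ?_⟩
      · calc q * x.1 + x.2 < q * x.1 + q := by omega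
          _ = q * (x.1 + 1) := by ring
          _ ≤ q * q := Nat.mul_le_mul_left _ hx.1
      · refine (dvd_congr P q _ _ ?_).2 hx.2.2
        unfold Nat.ModEq
        rw [Nat.mul_add_mod]
    · intro r _
      exact Nat.div_add_mod r q
    · intro x hx
      rw [mem_coe, mem_product, mem_filter, mem_range, mem_range] at hx
      refine Prod.ext ?_ ?_
      · show (q * x.1 + x.2) / q = x.1
        rw [Nat.mul_add_div hq.pos, Nat.div_eq_of_lt hx.2.1, add_zero]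
      · show (q * x.1 + x.2) % q = x.2
        rw [Nat.mul_add_mod, Nat.mod_eq_of_lt hx.2.1]
  have h2 : bet P q + q * rho P q = q ^ 2 := by
    unfold bet
    rw [← h1, ← sq]
    have h3 := Finset.card_filter_add_card_filter_not (s := range (q ^ 2))
      (fun r : ℕ => (q : ℤ) ∣ P.eval ((r : ℤ) + 1))
    rw [card_range] at h3
    rw [add_comm]
    convert h3
  have h3 : (bet P q : ℝ) + q * rho P q = (q : ℝ) ^ 2 := by exact_mod_cast h2
  have hq0 : (q : ℝ) ≠ 0 := by exact_mod_cast hq.ne_zero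
  have h4 : (q : ℝ) ^ 2 * (1 - (rho P q : ℝ) / q) = (q : ℝ) ^ 2 - q * rho P q := by
    field_simp
  rw [h4]
  linarith

theorem bet_large (P : ℤ[X]) (q κ : ℕ) (hq : q.Prime) (hκ : 2 * κ < q) (hρ : rho P q ≤ κ) :
    q ^ 2 ≤ 2 * bet P q := by
  have h1 := bet_eq P q hq
  have hq0 : (0 : ℝ) < q := by exact_mod_cast hq.pos
  have h2 : (rho P q : ℝ) / q ≤ 1 / 2 := by
    rw [div_le_iff₀ hq0]
    have h3 : (rho P q : ℝ) ≤ κ := by exact_mod_cast hρ
    have h4 : 2 * (κ : ℝ) < q := by exact_mod_cast hκ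
    linarith
  have h3 : ((q ^ 2 : ℕ) : ℝ) ≤ ((2 * bet P q : ℕ) : ℝ) := by
    push_cast
    rw [h1]
    nlinarith [sq_nonneg (q : ℝ)]
  exact_mod_cast h3

end Pool.Agent.TH573.HY
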