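import Pool.Agent.H483R2.ED_BHK
import Pool.Agent.H483R2.ED_CountCRT
import Pool.Agent.H474R2.PG.MertensF

/-!
Upper bound sieve for the values of a polynomial in residue classes.
-/

set_option autoImplicit false

namespace Pool.Agent.TH573.HY

open Finset Polynomial
open Pool.Agent.H410R2.ED Pool.Agent.H474R2.PG

theorem rho_affine (P : ℤ[X]) (l M r : ℕ) (hl : l.Prime) (hM : ¬ l ∣ M) :
    ((range l).filter (fun t : ℕ => (l : ℤ) ∣ P.eval (((r + M * t : ℕ) : ℤ) + 1))).card =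
      rho P l := by
  classical
  have : Fact l.Prime := ⟨hl⟩
  have hM0 : (M : ZMod l) ≠ 0 := by
    intro h
    exact hM ((ZMod.natCast_eq_zero_iff M l).1 h)
  have key : ∀ a b : ℕ, ((a : ZMod l) = (b : ZMod l)) →
      ((l : ℤ) ∣ P.eval (a : ℤ) ↔ (l : ℤ) ∣ P.eval (b : ℤ)) := by
    intro a b h
    have h1 : (l : ℤ) ∣ (a : ℤ) - b := by
      rw [← ZMod.intCast_zmod_eq_zero_iff_dvd]
      push_cast
      rw [h, sub_self]
    exact dvd_iff_dvd_of_dvd_sub (h1.trans (Polynomial.sub_dvd_eval_sub _ _ P))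
  unfold rho
  refine Finset.card_bij (fun t _ => (r + M * t + 1) % l) ?_ ?_ ?_
  · intro t ht
    rw [mem_filter, mem_range] at ht ⊢
    refine ⟨Nat.mod_lt _ hl.pos, ?_⟩
    rw [key _ (r + M * t + 1) (by rw [ZMod.natCast_mod])]
    push_cast at ht ⊢
    exact ht.2
  · intro t ht t' ht' h
    rw [mem_filter, mem_range] at ht ht'
    have h1 : ((r + M * t + 1 : ℕ) : ZMod l) = ((r + M * t' + 1 : ℕ) : ZMod l) :=
      (ZMod.natCast_eq_natCast_iff' _ _ _).2 h
    push_cast at h1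
    have h2 : (M : ZMod l) * t = (M : ZMod l) * t' := by
      have := add_right_cancel h1
      exact add_left_cancel this
    have h3 := mul_left_cancel₀ hM0 h2
    have h4 := (ZMod.natCast_eq_natCast_iff' _ _ _).1 h3
    rwa [Nat.mod_eq_of_lt ht.1, Nat.mod_eq_of_lt ht'.1] at h4
  · intro a ha
    rw [mem_filter, mem_range] at ha
    set x : ZMod l := ((a : ZMod l) - (r + 1)) * (M : ZMod l)⁻¹ with hx
    have h1 : ((r + M * x.val + 1 : ℕ) : ZMod l) = (a : ZMod l) := by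
      push_cast
      rw [ZMod.natCast_val, ZMod.cast_id', id, hx]
      field_simp
      ring
    refine ⟨x.val, ?_, ?_⟩
    · rw [mem_filter, mem_range]
      refine ⟨ZMod.val_lt x, ?_⟩
      have h2 := (key (r + M * x.val + 1) a h1).2 ha.2
      push_cast at h2 ⊢
      exact h2
    · have h2 := (ZMod.natCast_eq_natCast_iff' _ _ _).1 h1
      rwa [Nat.mod_eq_of_lt ha.1] at h2

theorem sieve : ∃ c : ℕ, 1 ≤ c ∧ ∀ P : ℤ[X], P ≠ 0 → ∃ κ : ℕ, 1 ≤ κ ∧
    (∀ l : ℕ, l.Prime → 2 * κ < l → rho P l ≤ κ) ∧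
    ∀ (J M r N1 N : ℕ), (∀ l : ℕ, l.Prime → l ∣ M → ¬ (l : ℤ) ∣ P.eval ((r : ℤ) + 1)) →
      (((Ico N1 (N1 + N)).filter (fun t : ℕ => ∀ l ∈ Pr κ J,
        ¬ (l : ℤ) ∣ P.eval (((r + M * t : ℕ) : ℤ) + 1))).card : ℝ) ≤
      2 * N * ∏ l ∈ (Pr κ J).filter (fun l => ¬ l ∣ M), (1 - (rho P l : ℝ) / l) +
        ((2 : ℝ) ^ 2 ^ J) ^ (c * κ) := by
  obtain ⟨c, hc, hB⟩ := Pool.Agent.H483R2.bhk
  refine ⟨c, hc, fun P hP => ?_⟩
  obtain ⟨B, hBrho⟩ := rho_le P hP
  obtain ⟨κ, hκ⟩ : ∃ κ, κ = max P.natDegree B + 1 := ⟨_, rfl⟩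
  have hκ1 : P.natDegree ≤ κ := by
    have := le_max_left P.natDegree B
    omega
  have hκ2 : B ≤ κ := by
    have := le_max_right P.natDegree B
    omega
  have hρ : ∀ l : ℕ, l.Prime → 2 * κ < l → rho P l ≤ κ :=
    fun l hl h => (hBrho l hl (by omega)).trans hκ1
  refine ⟨κ, by omega, hρ, fun J M r N1 N hr => ?_⟩
  obtain ⟨g, hg⟩ : ∃ g : ℕ → ℝ, g = fun l => if 2 * κ < l ∧ ¬ l ∣ M then (rho P l : ℝ) / l else 0 :=
    ⟨_, rfl⟩
  have hPr : ∀ l ∈ Pr κ J, l.Prime ∧ 2 * κ < l := fun l hl => (mem_filter.1 hl).2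
  have h1 := (hB κ (by omega) g (by
    intro l hl
    rw [hg]
    beta_reduce
    split_ifs with h
    · refine ⟨by positivity, ?_⟩
      have : (rho P l : ℝ) ≤ κ := by exact_mod_cast hρ l hl h.1
      exact div_le_div_of_nonneg_right this (by positivity)
    · exact ⟨le_rfl, by positivity⟩) J ℕ (Ico N1 (N1 + N))
      (fun t => (P.eval (((r + M * t : ℕ) : ℤ) + 1)).natAbs) N 1 (by positivity) (by norm_num) (by
    intro D hD
    by_cases hex : ∃ l ∈ D, l ∣ M
    · obtain ⟨l, hlD, hlM⟩ := hex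
      have h2 : (Ico N1 (N1 + N)).filter
          (fun t => ∀ l ∈ D, l ∣ (P.eval (((r + M * t : ℕ) : ℤ) + 1)).natAbs) = ∅ := by
        rw [Finset.filter_eq_empty_iff]
        intro t _ h
        have h3 := Int.natCast_dvd.2 (h l hlD)
        apply hr l (hPr l (hD hlD)).1 hlM
        have h4 : (l : ℤ) ∣ (((r + M * t : ℕ) : ℤ) + 1) - ((r : ℤ) + 1) := by
          have e : (((r + M * t : ℕ) : ℤ) + 1) - ((r : ℤ) + 1) = ((M * t : ℕ) : ℤ) := by
            push_cast; ring
          rw [e]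
          exact Int.natCast_dvd_natCast.2 (hlM.mul_right t)
        exact (dvd_iff_dvd_of_dvd_sub (h4.trans (Polynomial.sub_dvd_eval_sub _ _ P))).1 h3
      have h5 : ∏ l ∈ D, g l = 0 := by
        apply Finset.prod_eq_zero hlD
        rw [hg]
        exact if_neg (fun h => h.2 hlM)
      rw [h2, h5]
      simp only [Finset.card_empty, Nat.cast_zero, mul_zero, sub_zero, abs_zero, mul_one]
      positivity
    · push Not at hex
      have h2 := Pool.Agent.H483R2.countCRT D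
        (fun l t => l ∣ (P.eval (((r + M * t : ℕ) : ℤ) + 1)).natAbs)
        (fun l hl => (hPr l (hD hl)).1) (by
          intro l _ t
          rw [← Int.natCast_dvd, ← Int.natCast_dvd]
          have h4 : (l : ℤ) ∣ (((r + M * (t + l) : ℕ) : ℤ) + 1) - (((r + M * t : ℕ) : ℤ) + 1) := by
            refine ⟨M, ?_⟩
            push_cast; ring
          exact dvd_iff_dvd_of_dvd_sub (h4.trans (Polynomial.sub_dvd_eval_sub _ _ P))) N1 N
      have h3 : ∀ l ∈ D, (((range l).filter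
          (fun t => l ∣ (P.eval (((r + M * t : ℕ) : ℤ) + 1)).natAbs)).card : ℝ) = rho P l := by
        intro l hl
        have h4 := rho_affine P l M r (hPr l (hD hl)).1 (hex l hl)
        rw [← h4]
        congr 2
        apply Finset.filter_congr
        intro t _
        rw [Int.natCast_dvd]
      have h4 : ∏ l ∈ D, ((((range l).filter
          (fun t => l ∣ (P.eval (((r + M * t : ℕ) : ℤ) + 1)).natAbs)).card : ℝ) / l) =
          ∏ l ∈ D, g l := by
        apply Finset.prod_congr rfl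
        intro l hl
        rw [h3 l hl, hg]
        beta_reduce
        rw [if_pos ⟨(hPr l (hD hl)).2, hex l hl⟩]
      have h5 : ∏ l ∈ D, (((range l).filter
          (fun t => l ∣ (P.eval (((r + M * t : ℕ) : ℤ) + 1)).natAbs)).card : ℝ) ≤
          (κ : ℝ) ^ D.card := by
        rw [← Finset.prod_const]
        apply Finset.prod_le_prod
        · intro l _
          positivity
        · intro l hl
          rw [h3 l hl]
          exact_mod_cast hρ l (hPr l (hD hl)).1 (hPr l (hD hl)).2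
      rw [h4] at h2
      rw [mul_one]
      exact h2.trans h5)).2
  have h2 : ((Ico N1 (N1 + N)).filter (fun t : ℕ => ∀ l ∈ Pr κ J,
        ¬ (l : ℤ) ∣ P.eval (((r + M * t : ℕ) : ℤ) + 1))) = ((Ico N1 (N1 + N)).filter
      (fun t => ∀ l ∈ Pr κ J, ¬ l ∣ (P.eval (((r + M * t : ℕ) : ℤ) + 1)).natAbs)) := by
    apply Finset.filter_congr
    intro t _
    refine forall_congr' fun l => forall_congr' fun _ => ?_
    rw [Int.natCast_dvd]
  rw [h2]
  refine h1.trans (le_of_eq ?_)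
  rw [mul_one]
  congr 2
  rw [Finset.prod_filter]
  apply Finset.prod_congr rfl
  intro l hl
  rw [hg]
  beta_reduce
  by_cases h : l ∣ M
  · rw [if_neg (fun h' => h'.2 h), if_neg (not_not.2 h), sub_zero]
  · rw [if_pos ⟨(hPr l hl).2, h⟩, if_pos h]

end Pool.Agent.TH573.HY
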