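import Pool.Agent.TH573.HY.SV
import Pool.Agent.TH573.SM.Fact
import Pool.Agent.H474R2.GE.FA

/-!
The sieve product of a product of pairwise non-associated irreducible polynomials.
-/

set_option autoImplicit false

namespace Pool.Agent.TH573.HY

open Finset Polynomial
open Pool.Agent.H410R2.ED Pool.Agent.H474R2.PG

/-- the polynomials in `Ps` are irreducible of positive degree and pairwise not associated -/
def Fam (Ps : Finset ℤ[X]) : Prop :=
  (∀ p ∈ Ps, Irreducible p ∧ 0 < p.natDegree) ∧ ∀ p ∈ Ps, ∀ p' ∈ Ps, p ≠ p' → ¬ Associated p p'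

theorem coprime_of_not_dvd (p D : ℤ[X]) (hp : Irreducible p) (hd : 0 < p.natDegree)
    (h : ¬ p ∣ D) : IsCoprime (p.map (Int.castRingHom ℚ)) (D.map (Int.castRingHom ℚ)) := by
  have hprim : p.IsPrimitive := hp.isPrimitive hd.ne'
  have hirr : Irreducible (p.map (Int.castRingHom ℚ)) :=
    (IsPrimitive.Int.irreducible_iff_irreducible_map_cast hprim).1 hp
  rw [Irreducible.coprime_iff_not_dvd hirr]
  intro h1
  exact h ((IsPrimitive.Int.dvd_iff_map_cast_dvd_map_cast p D hprim).2 h1)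

/-- coprime polynomials have no common root modulo large primes -/
theorem no_common (p D : ℤ[X]) (hp : Irreducible p) (hd : 0 < p.natDegree) (h : ¬ p ∣ D) :
    ∃ B : ℕ, ∀ l : ℕ, l.Prime → B < l → ∀ a : ℤ, (l : ℤ) ∣ p.eval a → ¬ (l : ℤ) ∣ D.eval a := by
  obtain ⟨U, V, R, hR, hUV⟩ := Pool.Agent.TH573.SM.bezout p D (coprime_of_not_dvd p D hp hd h)
  refine ⟨R.natAbs, fun l hl hB a h1 h2 => ?_⟩
  have h3 : (l : ℤ) ∣ R := by
    have h4 : (U * p + V * D).eval a = R := by rw [hUV, eval_C]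
    rw [← h4, eval_add, eval_mul (p := U), eval_mul (p := V)]
    exact dvd_add (h1.mul_left _) (h2.mul_left _)
  have h5 : l ≤ R.natAbs := by
    have := Int.natAbs_le_of_dvd_ne_zero h3 hR
    simpa using this
  omega

theorem rho_sum_le (Ps : Finset ℤ[X]) (hPs : Fam Ps) :
    ∃ B : ℕ, ∀ l : ℕ, l.Prime → B < l → ∑ p ∈ Ps, rho p l ≤ rho (∏ p ∈ Ps, p) l := by
  classical
  have h1 : ∀ x : ℤ[X] × ℤ[X], ∃ B : ℕ, x.1 ∈ Ps → x.2 ∈ Ps → x.1 ≠ x.2 → ∀ l : ℕ, l.Prime →
      B < l → ∀ a : ℤ, (l : ℤ) ∣ x.1.eval a → ¬ (l : ℤ) ∣ x.2.eval a := by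
    rintro ⟨p, p'⟩
    by_cases h : p ∈ Ps ∧ p' ∈ Ps ∧ p ≠ p'
    · obtain ⟨hp, hp', hne⟩ := h
      have hnd : ¬ p ∣ p' := by
        intro hdv
        exact hPs.2 p hp p' hp' hne
          (((hPs.1 p hp).1.dvd_irreducible_iff_associated (hPs.1 p' hp').1).1 hdv)
      obtain ⟨B, hB⟩ := no_common p p' (hPs.1 p hp).1 (hPs.1 p hp).2 hnd
      exact ⟨B, fun _ _ _ => hB⟩
    · exact ⟨0, fun a b c => absurd ⟨a, b, c⟩ h⟩
  choose B hB using h1
  refine ⟨∑ x ∈ Ps ×ˢ Ps, B x, fun l hl hlB => ?_⟩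
  unfold rho
  rw [← Finset.card_biUnion]
  · apply Finset.card_le_card
    intro a ha
    rw [mem_biUnion] at ha
    obtain ⟨p, hp, ha⟩ := ha
    rw [mem_filter] at ha ⊢
    refine ⟨ha.1, ?_⟩
    rw [eval_prod]
    exact ha.2.trans (Finset.dvd_prod_of_mem (fun p : ℤ[X] => p.eval (a : ℤ)) hp)
  · intro p hp p' hp' hne
    rw [Function.onFun, Finset.disjoint_left]
    intro a ha ha'
    rw [mem_filter] at ha ha'
    refine hB (p, p') hp hp' hne l hl ?_ a ha.2 ha'.2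
    exact lt_of_le_of_lt (Finset.single_le_sum (f := B) (fun _ _ => Nat.zero_le _)
      (Finset.mem_product.2 ⟨hp, hp'⟩)) hlB

theorem prod_ne_zero' (Ps : Finset ℤ[X]) (hPs : Fam Ps) : (∏ p ∈ Ps, p) ≠ 0 :=
  Finset.prod_ne_zero_iff.2 fun p hp => (hPs.1 p hp).1.ne_zero

theorem V_bound (Ps : Finset ℤ[X]) (hPs : Fam Ps) (κ : ℕ)
    (hρ : ∀ l : ℕ, l.Prime → 2 * κ < l → rho (∏ p ∈ Ps, p) l ≤ κ) :
    ∃ C : ℝ, 0 < C ∧ ∀ J : ℕ, ∏ l ∈ Pr κ J, (1 - (rho (∏ p ∈ Ps, p) l : ℝ) / l) ≤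
      C / ((2 : ℝ) ^ J) ^ Ps.card := by
  classical
  obtain ⟨P, hP⟩ : ∃ P, P = ∏ p ∈ Ps, p := ⟨_, rfl⟩
  rw [← hP] at hρ ⊢
  obtain ⟨B, hB⟩ := rho_sum_le Ps hPs
  rw [← hP] at hB
  have hmer : ∀ p : ℤ[X], ∃ C : ℝ, p ∈ Ps → 0 ≤ C ∧ ∀ w : ℝ, 3 ≤ w →
      Real.log (Real.log w) - C ≤ Sg (rho p) w := by
    intro p
    by_cases h : p ∈ Ps
    · obtain ⟨C, hC⟩ := mertens_lower p (hPs.1 p h).1 (hPs.1 p h).2
      refine ⟨max C 0, fun _ => ⟨le_max_right _ _, fun w hw => ?_⟩⟩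
      have := hC w hw
      have := le_max_left C 0
      linarith
    · exact ⟨0, fun h' => absurd h' h⟩
  choose C hC using hmer
  obtain ⟨E, hE⟩ : ∃ E : ℕ, E = max B (2 * κ) := ⟨_, rfl⟩
  obtain ⟨C1, hC1⟩ : ∃ C1 : ℝ, C1 = ∑ p ∈ Ps, (C p + Sg (rho p) E) := ⟨_, rfl⟩
  have hSg0 : ∀ (p : ℤ[X]) (w : ℝ), 0 ≤ Sg (rho p) w := fun p w =>
    Finset.sum_nonneg fun l _ => by positivity
  -- lower bound for the sum
  have hsum : ∀ J : ℕ, 2 ≤ J → (Ps.card : ℝ) * ((J - 1) * Real.log 2 + Real.log (Real.log 2)) - C1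
      ≤ ∑ l ∈ Pr κ J, (rho P l : ℝ) / l := by
    intro J hJ
    obtain ⟨w, hw⟩ : ∃ w : ℕ, w = 2 ^ 2 ^ J - 1 := ⟨_, rfl⟩
    have hw2 : 2 ^ 2 ^ (J - 1) ≤ w := by
      have e : 2 ^ J = 2 ^ (J - 1) + 2 ^ (J - 1) := by
        obtain ⟨i, rfl⟩ : ∃ i, J = i + 1 := ⟨J - 1, by omega⟩
        rw [Nat.add_sub_cancel, pow_succ]; ring
      rw [hw, e, pow_add]
      have h1 : 2 ≤ 2 ^ 2 ^ (J - 1) := by
        calc 2 = 2 ^ 1 := (pow_one 2).symm
          _ ≤ 2 ^ 2 ^ (J - 1) := Nat.pow_le_pow_right (by norm_num) Nat.one_le_two_pow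
      have h2 : 2 * 2 ^ 2 ^ (J - 1) ≤ 2 ^ 2 ^ (J - 1) * 2 ^ 2 ^ (J - 1) :=
        Nat.mul_le_mul_right _ h1
      omega
    have hw3 : 3 ≤ w := by
      have h1 : 2 ^ 2 ^ 1 ≤ 2 ^ 2 ^ (J - 1) :=
        Nat.pow_le_pow_right (by norm_num) (Nat.pow_le_pow_right (by norm_num) (by omega))
      norm_num at h1
      omega
    have hll : ((J : ℝ) - 1) * Real.log 2 + Real.log (Real.log 2) ≤ Real.log (Real.log w) := by
      have h1 : Real.log (Real.log ((2 ^ 2 ^ (J - 1) : ℕ) : ℝ)) ≤ Real.log (Real.log w) := by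
        have h2 : (1 : ℝ) < ((2 ^ 2 ^ (J - 1) : ℕ) : ℝ) := by
          exact_mod_cast Nat.one_lt_two_pow (by positivity)
        apply Real.log_le_log (Real.log_pos h2)
        exact Real.log_le_log (by linarith) (by exact_mod_cast hw2)
      refine le_trans (le_of_eq ?_) h1
      rw [Nat.cast_pow, Real.log_pow, Nat.cast_pow, Real.log_mul (by positivity)
        (by have := Real.log_pos (by norm_num : (1 : ℝ) < 2); exact_mod_cast this.ne'),
        Real.log_pow]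
      push_cast [Nat.cast_sub (by omega : 1 ≤ J)]
      ring
    have h1 : ∀ p ∈ Ps, Real.log (Real.log w) - C p - Sg (rho p) E ≤
        ∑ l ∈ (Pr κ J).filter (fun l => B < l), (rho p l : ℝ) / l := by
      intro p hp
      have h2 := (hC p hp).2 w (by exact_mod_cast hw3)
      have h3 : Sg (rho p) w ≤ Sg (rho p) E +
          ∑ l ∈ (Pr κ J).filter (fun l => B < l), (rho p l : ℝ) / l := by
        unfold Sg PR
        rw [Nat.floor_natCast, Nat.floor_natCast,
          ← Finset.sum_filter_add_sum_filter_not ((Icc 1 w).filter Nat.Prime) (fun q => q ≤ E)]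
        apply add_le_add
        · apply Finset.sum_le_sum_of_subset_of_nonneg
          · intro q hq
            simp only [mem_filter, mem_Icc] at hq ⊢
            exact ⟨⟨hq.1.1.1, hq.2⟩, hq.1.2⟩
          · intro q _ _
            positivity
        · apply Finset.sum_le_sum_of_subset_of_nonneg
          · intro q hq
            unfold Pr
            simp only [mem_filter, mem_Icc, not_le, mem_range] at hq ⊢
            have h4 := le_max_left B (2 * κ)
            have h5 := le_max_right B (2 * κ)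
            refine ⟨⟨by omega, hq.1.2, by omega⟩, by omega⟩
          · intro q _ _
            positivity
      linarith
    have h2 : ∑ p ∈ Ps, (Real.log (Real.log w) - C p - Sg (rho p) E) ≤
        ∑ l ∈ Pr κ J, (rho P l : ℝ) / l := by
      refine (Finset.sum_le_sum h1).trans ?_
      rw [Finset.sum_comm]
      refine (Finset.sum_le_sum (g := fun l => (rho P l : ℝ) / l) ?_).trans ?_
      · intro l hl
        rw [mem_filter] at hl
        rw [← Finset.sum_div]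
        apply div_le_div_of_nonneg_right _ (by positivity)
        have h3 := hB l (mem_filter.1 hl.1).2.1 hl.2
        exact_mod_cast h3
      · apply Finset.sum_le_sum_of_subset_of_nonneg (Finset.filter_subset _ _)
        intro q _ _
        positivity
    refine le_trans ?_ h2
    have h3 : ∑ p ∈ Ps, (Real.log (Real.log w) - C p - Sg (rho p) E) =
        Ps.card * Real.log (Real.log w) - C1 := by
      rw [hC1, ← nsmul_eq_mul, ← Finset.sum_const, ← Finset.sum_sub_distrib]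
      exact Finset.sum_congr rfl fun p _ => by ring
    rw [h3]
    have h4 := mul_le_mul_of_nonneg_left hll (Nat.cast_nonneg Ps.card)
    linarith
  have hfac : ∀ J : ℕ, ∀ l ∈ Pr κ J, 0 ≤ 1 - (rho P l : ℝ) / l := by
    intro J l hl
    obtain ⟨_, hlp, hlκ⟩ := mem_filter.1 hl
    have h1 := hρ l hlp hlκ
    have h2 : (rho P l : ℝ) ≤ l := by exact_mod_cast (by omega : rho P l ≤ l)
    have h3 : (0 : ℝ) < l := by exact_mod_cast hlp.pos
    have h4 : (rho P l : ℝ) / l ≤ 1 := by rw [div_le_one h3]; exact h2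
    linarith
  obtain ⟨k, hk⟩ : ∃ k, k = Ps.card := ⟨_, rfl⟩
  rw [← hk] at hsum ⊢
  refine ⟨max ((2 : ℝ) ^ k) (Real.exp (C1 - k * (Real.log (Real.log 2) - Real.log 2))),
    lt_of_lt_of_le (by positivity) (le_max_left _ _), fun J => ?_⟩
  rw [le_div_iff₀ (by positivity)]
  by_cases hJ : 2 ≤ J
  · have h1 : ∏ l ∈ Pr κ J, (1 - (rho P l : ℝ) / l) ≤
        Real.exp (-(∑ l ∈ Pr κ J, (rho P l : ℝ) / l)) := by
      rw [← Finset.sum_neg_distrib, Real.exp_sum]
      apply Finset.prod_le_prod (hfac J)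
      intro l _
      have := Real.add_one_le_exp (-((rho P l : ℝ) / l))
      linarith
    have h2 : ((2 : ℝ) ^ J) ^ k = Real.exp (k * (J * Real.log 2)) := by
      rw [Real.exp_nat_mul, Real.exp_nat_mul, Real.exp_log (by norm_num)]
    refine le_trans ?_ (le_max_right _ _)
    rw [h2]
    refine (mul_le_mul_of_nonneg_right h1 (Real.exp_pos _).le).trans ?_
    rw [← Real.exp_add]
    apply Real.exp_le_exp.2
    have h3 := hsum J hJ
    nlinarith
  · have h1 : ∏ l ∈ Pr κ J, (1 - (rho P l : ℝ) / l) ≤ 1 := by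
      apply Finset.prod_le_one (hfac J)
      intro l _
      have : (0 : ℝ) ≤ (rho P l : ℝ) / l := by positivity
      linarith
    refine le_trans ?_ (le_max_left _ _)
    have h2 : ((2 : ℝ) ^ J) ^ k ≤ 2 ^ k := by
      apply pow_le_pow_left₀ (by positivity)
      calc (2 : ℝ) ^ J ≤ 2 ^ 1 := pow_le_pow_right₀ (by norm_num) (by omega)
        _ = 2 := pow_one 2
    calc _ ≤ 1 * ((2 : ℝ) ^ J) ^ k := mul_le_mul_of_nonneg_right h1 (by positivity)
      _ ≤ 2 ^ k := by rw [one_mul]; exact h2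

end Pool.Agent.TH573.HY
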