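import Pool.Agent.H220M.Base4
import Pool.Agent.H220M.M5

/-!
Moments over subsets for weights supported on a set of natural numbers, and the passage from
tuples to tuples of residues.
-/

set_option autoImplicit false

namespace Pool.Agent.TH573.HY

open Finset Polynomial
open Pool.Agent.H220M

/-- moments over subsets: sums over a finite set `I`, weights bounded by `K` -/
theorem moment (Q I : Finset ℕ) (k : ℕ) (G : ℕ → ℝ) (K : ℝ) (hG : ∀ m ∈ I, |G m| ≤ K)
    (V : ℕ → ℕ → ℕ) :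
    ∑ S ∈ Q.powerset, (∑ m ∈ I, G m * ∏ q ∈ S, (-1 : ℝ) ^ (V q m)) ^ k
      ≤ 2 ^ Q.card * (K ^ k * (((Fintype.piFinset (fun _ : Fin k => I)).filter
          (fun τ => ∀ q ∈ Q, Even (∑ i, V q (τ i)))).card : ℝ)) := by
  have e1 : ∀ S : Finset ℕ, (∑ m ∈ I, G m * ∏ q ∈ S, (-1 : ℝ) ^ (V q m)) ^ k =
      ∑ τ ∈ Fintype.piFinset (fun _ : Fin k => I), (∏ i, G (τ i)) *
        ∏ q ∈ S, (-1 : ℝ) ^ (∑ i, V q (τ i)) := by
    intro S
    have h0 : (∑ m ∈ I, G m * ∏ q ∈ S, (-1 : ℝ) ^ (V q m)) ^ k =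
        ∏ _i : Fin k, ∑ m ∈ I, G m * ∏ q ∈ S, (-1 : ℝ) ^ (V q m) := by
      rw [Finset.prod_const, Finset.card_univ, Fintype.card_fin]
    rw [h0, Finset.prod_univ_sum]
    refine Finset.sum_congr rfl fun τ _ => ?_
    rw [Finset.prod_mul_distrib, Finset.prod_comm]
    congr 1
    refine Finset.prod_congr rfl fun q _ => ?_
    rw [Finset.prod_pow_eq_pow_sum]
  have e2 : ∑ S ∈ Q.powerset, (∑ m ∈ I, G m * ∏ q ∈ S, (-1 : ℝ) ^ (V q m)) ^ k =
      ∑ τ ∈ Fintype.piFinset (fun _ : Fin k => I), (∏ i, G (τ i)) *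
        ∏ q ∈ Q, (1 + (-1 : ℝ) ^ (∑ i, V q (τ i))) := by
    simp only [e1]
    rw [Finset.sum_comm]
    refine Finset.sum_congr rfl fun p _ => ?_
    rw [← Finset.mul_sum, Finset.prod_one_add]
  rw [e2]
  have e3 : ∀ τ : Fin k → ℕ, ∏ q ∈ Q, (1 + (-1 : ℝ) ^ (∑ i, V q (τ i))) =
      if ∀ q ∈ Q, Even (∑ i, V q (τ i)) then (2 : ℝ) ^ Q.card else 0 := by
    intro τ
    split_ifs with h
    · rw [Finset.prod_congr rfl (g := fun _ => (2 : ℝ)) (fun q hq => by
        rw [(h q hq).neg_one_pow]; norm_num), Finset.prod_const]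
    · push Not at h
      obtain ⟨q, hq, hq'⟩ := h
      refine Finset.prod_eq_zero hq ?_
      have : Odd (∑ i, V q (τ i)) := by
        rcases Nat.even_or_odd (∑ i, V q (τ i)) with h' | h'
        · exact absurd h' hq'
        · exact h'
      rw [this.neg_one_pow]; norm_num
  have e4 : ∑ τ ∈ Fintype.piFinset (fun _ : Fin k => I), (∏ i, G (τ i)) *
        ∏ q ∈ Q, (1 + (-1 : ℝ) ^ (∑ i, V q (τ i))) ≤
      ∑ τ ∈ Fintype.piFinset (fun _ : Fin k => I),
        if ∀ q ∈ Q, Even (∑ i, V q (τ i)) then (2 : ℝ) ^ Q.card * K ^ k else 0 := by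
    refine Finset.sum_le_sum fun τ hτ => ?_
    rw [e3]
    have h1 : (∏ i, G (τ i)) ≤ K ^ k := by
      calc (∏ i, G (τ i)) ≤ |∏ i, G (τ i)| := le_abs_self _
        _ = ∏ i, |G (τ i)| := Finset.abs_prod _ _
        _ ≤ ∏ _i : Fin k, K :=
            Finset.prod_le_prod (fun i _ => abs_nonneg _)
              (fun i _ => hG _ (Fintype.mem_piFinset.1 hτ i))
        _ = K ^ k := by rw [Finset.prod_const, Finset.card_univ, Fintype.card_fin]
    split_ifs with h
    · calc _ ≤ K ^ k * (2 : ℝ) ^ Q.card := mul_le_mul_of_nonneg_right h1 (by positivity)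
        _ = _ := mul_comm _ _
    · rw [mul_zero]
  refine e4.trans (le_of_eq ?_)
  rw [← Finset.sum_filter, Finset.sum_const, nsmul_eq_mul]
  ring

open Classical in
/-- from tuples to tuples of residues -/
theorem to_residues (k M L : ℕ) (hM : 0 < M) (I : Finset ℕ)
    (hL : ∀ ρ < M, (I.filter (fun m => m % M = ρ)).card ≤ L) (P : (Fin k → ℕ) → Prop)
    (hP : ∀ τ : Fin k → ℕ, (P τ ↔ P (fun i => τ i % M))) :
    ((Fintype.piFinset (fun _ : Fin k => I)).filter P).card
      ≤ L ^ k * ((Fintype.piFinset (fun _ : Fin k => range M)).filter P).card := by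
  refine Finset.card_le_mul_card_image_of_maps_to
    (f := fun (τ : Fin k → ℕ) => (fun i => τ i % M)) ?_ (L ^ k) ?_
  · intro τ hτ
    rw [mem_filter] at hτ ⊢
    refine ⟨Fintype.mem_piFinset.2 fun i => mem_range.2 (Nat.mod_lt _ hM), ?_⟩
    exact (hP τ).1 hτ.2
  · intro ρ hρ
    rw [mem_filter, Fintype.mem_piFinset] at hρ
    calc _ ≤ (Fintype.piFinset (fun i : Fin k => I.filter (fun m => m % M = ρ i))).card := by
          apply card_le_card
          intro τ hτ
          rw [mem_filter, mem_filter, Fintype.mem_piFinset] at hτ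
          rw [Fintype.mem_piFinset]
          intro i
          rw [mem_filter]
          exact ⟨hτ.1.1 i, congrFun hτ.2 i⟩
      _ = ∏ i : Fin k, (I.filter (fun m => m % M = ρ i)).card := Fintype.card_piFinset _
      _ ≤ ∏ _i : Fin k, L := Finset.prod_le_prod' fun i _ => hL _ (mem_range.1 (hρ.1 i))
      _ = L ^ k := by rw [Finset.prod_const, Finset.card_univ, Fintype.card_fin]

end Pool.Agent.TH573.HY
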