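import Pool.Agent.TH573.HY.CA

/-!
The weights `∏ Λ(|p(m+1)|)`: size, exceptional places, short intervals.
-/

set_option autoImplicit false

namespace Pool.Agent.TH573.HY

open Finset Polynomial Filter
open Pool.Agent.H410R2.ED Pool.Agent.H474R2.PG

/-- the product of the von Mangoldt functions of the values of the polynomials -/
noncomputable def wt (Ps : Finset ℤ[X]) (m : ℕ) : ℝ :=
  ∏ p ∈ Ps, ArithmeticFunction.vonMangoldt (p.eval ((m : ℤ) + 1)).natAbs

theorem wt_nonneg (Ps : Finset ℤ[X]) (m : ℕ) : 0 ≤ wt Ps m :=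
  Finset.prod_nonneg fun _ _ => ArithmeticFunction.vonMangoldt_nonneg

/-- size of the values of a polynomial at the scale `2 ^ j` -/
theorem value_le (p : ℤ[X]) : ∃ C : ℕ, 1 ≤ C ∧ ∀ j : ℕ, 1 ≤ j → ∀ m : ℕ, m < 2 ^ (2 * j) →
    (p.eval ((m : ℤ) + 1)).natAbs ≤ 2 ^ (C * j) := by
  obtain ⟨S, hS⟩ : ∃ S : ℕ, S = ∑ i ∈ range (p.natDegree + 1), (p.coeff i).natAbs := ⟨_, rfl⟩
  refine ⟨S + 2 * p.natDegree + 1, by omega, fun j hj m hm => ?_⟩
  have h1 : (p.eval ((m : ℤ) + 1)).natAbs ≤ S * (m + 1) ^ p.natDegree := by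
    rw [eval_eq_sum_range, hS, Finset.sum_mul]
    refine (Int.natAbs_sum_le _ _).trans (Finset.sum_le_sum fun i hi => ?_)
    rw [Int.natAbs_mul, Int.natAbs_pow]
    apply Nat.mul_le_mul_left
    have e : ((m : ℤ) + 1).natAbs = m + 1 := by omega
    rw [e]
    exact Nat.pow_le_pow_right (by omega) (Nat.lt_succ_iff.1 (mem_range.1 hi))
  have h2 : S ≤ 2 ^ (S * j) := by
    have h3 : S < 2 ^ S := Nat.lt_two_pow_self
    exact h3.le.trans (Nat.pow_le_pow_right (by norm_num) (Nat.le_mul_of_pos_right _ hj))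
  have h3 : (m + 1) ^ p.natDegree ≤ 2 ^ (2 * j * p.natDegree) := by
    rw [pow_mul]
    exact Nat.pow_le_pow_left hm _
  calc (p.eval ((m : ℤ) + 1)).natAbs ≤ S * (m + 1) ^ p.natDegree := h1
    _ ≤ 2 ^ (S * j) * 2 ^ (2 * j * p.natDegree) := Nat.mul_le_mul h2 h3
    _ = 2 ^ (S * j + 2 * j * p.natDegree) := (pow_add _ _ _).symm
    _ ≤ 2 ^ ((S + 2 * p.natDegree + 1) * j) := Nat.pow_le_pow_right (by norm_num) (by nlinarith)

/-- size of the weights -/
theorem wt_le (Ps : Finset ℤ[X]) : ∃ C : ℝ, 0 < C ∧ ∀ j : ℕ, 1 ≤ j → ∀ m : ℕ, m < 2 ^ (2 * j) →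
    wt Ps m ≤ (C * j) ^ Ps.card := by
  choose C hC1 hC using value_le
  refine ⟨∑ p ∈ Ps, (C p : ℝ) + 1, by positivity, fun j hj m hm => ?_⟩
  unfold wt
  rw [← Finset.prod_const]
  apply Finset.prod_le_prod (fun _ _ => ArithmeticFunction.vonMangoldt_nonneg)
  intro p hp
  have hj0 : (1 : ℝ) ≤ j := by exact_mod_cast hj
  have h1 : (C p : ℝ) ≤ ∑ p ∈ Ps, (C p : ℝ) :=
    Finset.single_le_sum (f := fun p => (C p : ℝ)) (fun _ _ => Nat.cast_nonneg _) hp
  have h2 : ArithmeticFunction.vonMangoldt (p.eval ((m : ℤ) + 1)).natAbs ≤ C p * j := by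
    refine ArithmeticFunction.vonMangoldt_le_log.trans ?_
    rcases Nat.eq_zero_or_pos (p.eval ((m : ℤ) + 1)).natAbs with h0 | h0
    · rw [h0, Nat.cast_zero, Real.log_zero]
      positivity
    · have h3 : (((p.eval ((m : ℤ) + 1)).natAbs : ℕ) : ℝ) ≤ (2 : ℝ) ^ (C p * j) := by
        exact_mod_cast hC p j hj m hm
      refine (Real.log_le_log (by exact_mod_cast h0) h3).trans ?_
      rw [Real.log_pow]
      push_cast
      have h4 : Real.log 2 ≤ 1 := by
        have := Real.log_two_lt_d9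
        linarith
      have h5 : (0 : ℝ) ≤ (C p : ℝ) * j := by positivity
      nlinarith
  nlinarith

/-- a polynomial takes a value at most `natDegree` times, up to sign -/
theorem card_value (p : ℤ[X]) (hd : 0 < p.natDegree) (v X : ℕ) :
    ((range X).filter (fun m : ℕ => (p.eval ((m : ℤ) + 1)).natAbs = v)).card ≤
      2 * p.natDegree := by
  classical
  have hne : ∀ c : ℤ, p - C c ≠ 0 := by
    intro c h
    have : p = C c := sub_eq_zero.1 h
    rw [this, natDegree_C] at hd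
    exact absurd hd (lt_irrefl _)
  have hcard : ∀ c : ℤ, (p - C c).roots.toFinset.card ≤ p.natDegree := by
    intro c
    refine (Multiset.toFinset_card_le _).trans ((card_roots' _).trans ?_)
    rw [natDegree_sub_C]
  calc _ ≤ ((p - C (v : ℤ)).roots.toFinset ∪ (p - C (-(v : ℤ))).roots.toFinset).card := by
        refine Finset.card_le_card_of_injOn (fun m : ℕ => (m : ℤ) + 1) ?_ ?_
        · intro m hm
          rw [mem_coe, mem_filter] at hm
          rw [mem_coe, mem_union, Multiset.mem_toFinset, Multiset.mem_toFinset,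
            mem_roots (hne _), mem_roots (hne _), IsRoot.def, IsRoot.def, eval_sub, eval_sub,
            eval_C, eval_C]
          rcases Int.natAbs_eq (p.eval ((m : ℤ) + 1)) with h | h
          · left
            rw [h, hm.2, sub_self]
          · right
            rw [h, hm.2, sub_self]
        · intro m _ m' _ h
          simp only at h
          omega
    _ ≤ (p - C (v : ℤ)).roots.toFinset.card + (p - C (-(v : ℤ))).roots.toFinset.card :=
        card_union_le _ _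
    _ ≤ p.natDegree + p.natDegree := add_le_add (hcard _) (hcard _)
    _ = 2 * p.natDegree := by ring

open Classical in
/-- the places with a nonzero weight at which a value has a small prime factor -/
noncomputable def Exc (Ps : Finset ℤ[X]) (c κ j : ℕ) : Finset ℕ :=
  (range (2 ^ (2 * j))).filter (fun m => ¬ Wp (∏ p ∈ Ps, p) c κ j m ∧ wt Ps m ≠ 0)

theorem exc_card (Ps : Finset ℤ[X]) (hPs : Fam Ps) (c κ : ℕ) (hcκ : 1 ≤ c * κ) :
    ∃ C : ℝ, 0 < C ∧ ∀ j : ℕ, 1 ≤ j → 8 * (c * κ) ≤ j →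
      ((Exc Ps c κ j).card : ℝ) ≤ C * (2 ^ (j / 8) * j) := by
  classical
  choose A hA1 hA using value_le
  obtain ⟨T, hT⟩ : ∃ T : ℕ, T = ∑ p ∈ Ps, (A p + 1) * (2 * p.natDegree) := ⟨_, rfl⟩
  refine ⟨T + 1, by positivity, fun j hj hj2 => ?_⟩
  obtain ⟨z, hz⟩ : ∃ z, z = 2 ^ 2 ^ JJ c κ j := ⟨_, rfl⟩
  have hzle : z ≤ 2 ^ (j / 8) := by rw [hz]; exact pow_pow_JJ_le hcκ hj2
  have hsub : Exc Ps c κ j ⊆ Ps.biUnion (fun p => (range z ×ˢ range (A p * j + 1)).biUnion
      (fun x => (range (2 ^ (2 * j))).filter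
        (fun m : ℕ => (p.eval ((m : ℤ) + 1)).natAbs = x.1 ^ x.2))) := by
    intro m hm
    unfold Exc at hm
    rw [mem_filter, mem_range] at hm
    obtain ⟨hmX, hW, hw⟩ := hm
    unfold Wp at hW
    push Not at hW
    obtain ⟨l, hl, hd⟩ := hW
    unfold Pr at hl
    rw [mem_filter, mem_range, ← hz] at hl
    have hlp : l.Prime := hl.2.1
    rw [eval_prod, Prime.dvd_finsetProd_iff (Nat.prime_iff_prime_int.mp hlp)] at hd
    obtain ⟨p, hp, hd⟩ := hd
    unfold wt at hw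
    have h1 := (Finset.prod_ne_zero_iff.1 hw) p hp
    rw [ArithmeticFunction.vonMangoldt_ne_zero_iff, isPrimePow_nat_iff] at h1
    obtain ⟨l', e, hl', he, hle⟩ := h1
    have h2 : l ∣ l' ^ e := by
      rw [hle]
      exact Int.natCast_dvd.1 hd
    have h3 : l = l' := (Nat.prime_dvd_prime_iff_eq hlp hl').1 (hlp.dvd_of_dvd_pow h2)
    subst h3
    have h4 : 2 ^ e ≤ 2 ^ (A p * j) := by
      calc 2 ^ e ≤ l ^ e := Nat.pow_le_pow_left hlp.two_le e
        _ = (p.eval ((m : ℤ) + 1)).natAbs := hle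
        _ ≤ 2 ^ (A p * j) := hA p j hj m hmX
    have h5 : e ≤ A p * j := (Nat.pow_le_pow_iff_right (by norm_num)).1 h4
    rw [mem_biUnion]
    refine ⟨p, hp, ?_⟩
    rw [mem_biUnion]
    refine ⟨(l, e), ?_, ?_⟩
    · rw [mem_product, mem_range, mem_range]
      exact ⟨hl.1, by show e < A p * j + 1; omega⟩
    · rw [mem_filter, mem_range]
      exact ⟨hmX, hle.symm⟩
  have hcard : (Exc Ps c κ j).card ≤ ∑ p ∈ Ps, (z * (A p * j + 1)) * (2 * p.natDegree) := by
    refine (Finset.card_le_card hsub).trans (Finset.card_biUnion_le.trans ?_)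
    apply Finset.sum_le_sum
    intro p hp
    refine (Finset.card_biUnion_le_card_mul _ _ (2 * p.natDegree) ?_).trans ?_
    · intro x _
      exact card_value p (hPs.1 p hp).2 _ _
    · rw [card_product, card_range, card_range]
  have h1 : ∑ p ∈ Ps, (z * (A p * j + 1)) * (2 * p.natDegree) ≤ T * (2 ^ (j / 8) * j) := by
    rw [hT, Finset.sum_mul]
    apply Finset.sum_le_sum
    intro p _
    have h2 : A p * j + 1 ≤ (A p + 1) * j := by nlinarith
    calc (z * (A p * j + 1)) * (2 * p.natDegree)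
        ≤ (2 ^ (j / 8) * ((A p + 1) * j)) * (2 * p.natDegree) := by gcongr
      _ = (A p + 1) * (2 * p.natDegree) * (2 ^ (j / 8) * j) := by ring
  have h2 : ((Exc Ps c κ j).card : ℝ) ≤ (T : ℝ) * (2 ^ (j / 8) * j) := by
    have := hcard.trans h1
    exact_mod_cast this
  have h3 : (0 : ℝ) ≤ 2 ^ (j / 8) * j := by positivity
  linarith

/-- the exceptional places contribute little -/
theorem exc_sum (Ps : Finset ℤ[X]) (hPs : Fam Ps) (c κ : ℕ) (hcκ : 1 ≤ c * κ) (ε : ℝ)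
    (hε : 0 < ε) : ∀ᶠ j : ℕ in atTop, ∑ m ∈ Exc Ps c κ j, wt Ps m ≤ ε * 2 ^ j := by
  obtain ⟨C, hC, h⟩ := exc_card Ps hPs c κ hcκ
  obtain ⟨C', hC', h'⟩ := wt_le Ps
  filter_upwards [ev_pow (Ps.card + 1) (ε / (C * C' ^ Ps.card)) (by positivity),
    eventually_ge_atTop (8 * (c * κ)), eventually_ge_atTop 1] with j hj1 hj2 hj3
  have h1 : ∑ m ∈ Exc Ps c κ j, wt Ps m ≤ ∑ m ∈ Exc Ps c κ j, (C' * j) ^ Ps.card := by
    apply Finset.sum_le_sum
    intro m hm
    unfold Exc at hm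
    rw [mem_filter, mem_range] at hm
    exact h' j hj3 m hm.1
  rw [Finset.sum_const, nsmul_eq_mul] at h1
  have h2 := h j hj3 hj2
  have hj0 : (0 : ℝ) ≤ j := Nat.cast_nonneg _
  calc _ ≤ _ := h1
    _ ≤ C * (2 ^ (j / 8) * j) * (C' * j) ^ Ps.card :=
        mul_le_mul_of_nonneg_right h2 (by positivity)
    _ = 2 ^ (j / 8) * (C * C' ^ Ps.card) * (j : ℝ) ^ (Ps.card + 1) := by
        rw [mul_pow, pow_succ]; ring
    _ ≤ 2 ^ (j / 8) * (C * C' ^ Ps.card) * (ε / (C * C' ^ Ps.card) * 2 ^ (j / 2)) :=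
        mul_le_mul_of_nonneg_left hj1 (by positivity)
    _ = ε * 2 ^ (j / 8 + j / 2) := by
        rw [pow_add]; field_simp
    _ ≤ ε * 2 ^ j := by
        apply mul_le_mul_of_nonneg_left _ hε.le
        exact pow_le_pow_right₀ (by norm_num) (by omega)

/-- weights in short intervals -/
theorem short (Ps : Finset ℤ[X]) (hPs : Fam Ps) (P : ℤ[X]) (hP : P = ∏ p ∈ Ps, p)
    (c κ : ℕ) (h : SieveFor P c κ) :
    ∃ C : ℝ, 0 < C ∧ ∀ᶠ j : ℕ in atTop, ∀ N : ℕ, N + 2 ^ j ≤ 2 ^ (2 * j) →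
      ∑ m ∈ Ico N (N + 2 ^ j), wt Ps m ≤ C * 2 ^ j := by
  classical
  obtain ⟨hc1, hκ1, hρ, hsv⟩ := id h
  have hcκ : 1 ≤ c * κ := Nat.mul_pos hc1 hκ1
  obtain ⟨C, hC, hV⟩ := V_scale Ps hPs c κ hcκ (by rw [← hP]; exact hρ)
  rw [← hP] at hV
  obtain ⟨C', hC', h'⟩ := wt_le Ps
  obtain ⟨k, hk⟩ : ∃ k, k = Ps.card := ⟨_, rfl⟩
  refine ⟨(2 * C + 1) * C' ^ k + 1, by positivity, ?_⟩
  filter_upwards [exc_sum Ps hPs c κ hcκ 1 one_pos, ev_pow Ps.card 1 one_pos,
    eventually_ge_atTop (8 * (c * κ)), eventually_ge_atTop 1] with j hj1 hj2 hj3 hj4 N hN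
  rw [← hk] at hV hj2 h'
  rw [← Finset.sum_filter_add_sum_filter_not (Ico N (N + 2 ^ j)) (Wp P c κ j)]
  have h1 : ∑ m ∈ (Ico N (N + 2 ^ j)).filter (fun m => ¬ Wp P c κ j m), wt Ps m ≤ 1 * 2 ^ j := by
    refine le_trans ?_ hj1
    rw [← Finset.sum_filter_ne_zero]
    apply Finset.sum_le_sum_of_subset_of_nonneg
    · intro m hm
      rw [mem_filter, mem_filter, mem_Ico] at hm
      unfold Exc
      rw [mem_filter, mem_range, ← hP]
      exact ⟨by omega, hm.1.2, hm.2⟩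
    · intro m _ _
      exact wt_nonneg Ps m
  have h2 : (((Ico N (N + 2 ^ j)).filter (Wp P c κ j)).card : ℝ) ≤
      (2 * C + 1) * (2 ^ j / (j : ℝ) ^ k) := by
    have h3 := hsv (JJ c κ j) 1 0 N (2 ^ j) (by
      intro l hl hd
      exact absurd (Nat.dvd_one.1 hd) hl.one_lt.ne')
    have h4 : (Ico N (N + 2 ^ j)).filter (Wp P c κ j) = (Ico N (N + 2 ^ j)).filter
        (fun t : ℕ => ∀ l ∈ Pr κ (JJ c κ j),
          ¬ (l : ℤ) ∣ P.eval (((0 + 1 * t : ℕ) : ℤ) + 1)) := by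
      apply Finset.filter_congr
      intro t _
      unfold Wp
      rw [zero_add, one_mul]
    rw [← h4] at h3
    refine h3.trans ?_
    have h5 : ∏ l ∈ (Pr κ (JJ c κ j)).filter (fun l => ¬ l ∣ 1), (1 - (rho P l : ℝ) / l) =
        ∏ l ∈ Pr κ (JJ c κ j), (1 - (rho P l : ℝ) / l) := by
      congr 1
      apply Finset.filter_true_of_mem
      intro l hl hd
      unfold Pr at hl
      rw [mem_filter] at hl
      exact absurd (Nat.dvd_one.1 hd) hl.2.1.one_lt.ne'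
    rw [h5]
    have hjk : (0 : ℝ) < (j : ℝ) ^ k := by
      have : (0 : ℝ) < j := by exact_mod_cast hj4
      positivity
    have h6 : ((2 : ℝ) ^ 2 ^ JJ c κ j) ^ (c * κ) ≤ 2 ^ j / (j : ℝ) ^ k := by
      rw [le_div_iff₀ hjk]
      calc _ ≤ (2 : ℝ) ^ (j / 8) * (1 * 2 ^ (j / 2)) := by
            apply mul_le_mul (sifting_le hcκ hj3) hj2 hjk.le (by positivity)
        _ = (2 : ℝ) ^ (j / 8 + j / 2) := by rw [pow_add]; ring
        _ ≤ 2 ^ j := pow_le_pow_right₀ (by norm_num) (by omega)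
    have h7 : 2 * ((2 ^ j : ℕ) : ℝ) * ∏ l ∈ Pr κ (JJ c κ j), (1 - (rho P l : ℝ) / l) ≤
        2 * ((2 ^ j : ℕ) : ℝ) * (C / (j : ℝ) ^ k) :=
      mul_le_mul_of_nonneg_left (hV j hj4) (by positivity)
    refine (add_le_add h7 h6).trans (le_of_eq ?_)
    push_cast
    ring
  have h3 : ∑ m ∈ (Ico N (N + 2 ^ j)).filter (Wp P c κ j), wt Ps m ≤
      (2 * C + 1) * C' ^ k * 2 ^ j := by
    have h4 : ∑ m ∈ (Ico N (N + 2 ^ j)).filter (Wp P c κ j), wt Ps m ≤
        ∑ m ∈ (Ico N (N + 2 ^ j)).filter (Wp P c κ j), (C' * j) ^ k := by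
      apply Finset.sum_le_sum
      intro m hm
      rw [mem_filter, mem_Ico] at hm
      exact h' j hj4 m (by omega)
    rw [Finset.sum_const, nsmul_eq_mul] at h4
    refine h4.trans ((mul_le_mul_of_nonneg_right h2 (by positivity)).trans (le_of_eq ?_))
    have hj0 : (j : ℝ) ≠ 0 := by
      have : (0 : ℝ) < j := by exact_mod_cast hj4
      exact this.ne'
    rw [mul_pow]
    field_simp
  linarith

end Pool.Agent.TH573.HY
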